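import Pool.Agent.W919.CB.Sys

/-!
# Cantor's theorem with colours
-/

namespace Pool.Agent.W919.CB
open Set

/-- the colouring -/
noncomputable def kap (q : ℚ) : ℕ := (-(padicValRat 2 q)).toNat

theorem kap_dense (n : ℕ) (x y : ℚ) (hxy : x < y) : ∃ q, x < q ∧ q < y ∧ kap q = n := by
  obtain ⟨m, hm⟩ := exists_nat_gt (2 / (y - x))
  have hyx : 0 < y - x := sub_pos.2 hxy
  set D : ℚ := 2 ^ n * (2 * m + 1) with hD
  have hD0 : 0 < D := by positivity
  have hmD : (m : ℚ) ≤ D := by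
    have h1 : (1 : ℚ) ≤ 2 ^ n := one_le_pow₀ (by norm_num)
    have h2 : (0 : ℚ) ≤ m := Nat.cast_nonneg m
    nlinarith
  have hlen : 2 < (y - x) * D := by
    have h3 : 2 < m * (y - x) := (div_lt_iff₀ hyx).1 hm
    nlinarith
  set j : ℤ := ⌊(x * D - 1) / 2⌋ + 1 with hj
  have hj1 : (x * D - 1) / 2 < j := by
    rw [hj]; push_cast; exact Int.lt_floor_add_one _
  have hj2 : (j : ℚ) ≤ (x * D - 1) / 2 + 1 := by
    rw [hj]; push_cast; linarith [Int.floor_le ((x * D - 1) / 2)]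
  refine ⟨(2 * j + 1 : ℤ) / D, ?_, ?_, ?_⟩
  · rw [lt_div_iff₀ hD0]
    push_cast
    linarith
  · rw [div_lt_iff₀ hD0]
    push_cast
    linarith
  · have hodd : (2 * j + 1 : ℤ) ≠ 0 := by omega
    have hoddq : ((2 * j + 1 : ℤ) : ℚ) ≠ 0 := by exact_mod_cast hodd
    have h2 : Fact (Nat.Prime 2) := ⟨Nat.prime_two⟩
    have hv : padicValRat 2 ((2 * j + 1 : ℤ) / D) = -n := by
      rw [padicValRat.div hoddq hD0.ne', hD, padicValRat.mul (by positivity) (by positivity),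
        padicValRat.pow]
      have e1 : padicValRat 2 ((2 * j + 1 : ℤ) : ℚ) = 0 := by
        rw [padicValRat.of_int, padicValInt.eq_zero_of_not_dvd]
        · rfl
        · intro h
          have : (2 : ℤ) ∣ 2 * j + 1 := by exact_mod_cast h
          omega
      have e2 : padicValRat 2 (2 * (m : ℚ) + 1) = 0 := by
        have : (2 * (m : ℚ) + 1) = ((2 * m + 1 : ℕ) : ℚ) := by push_cast; ring
        rw [this, padicValRat.of_nat, padicValNat.eq_zero_of_not_dvd]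
        · rfl
        · omega
      have e3 : padicValRat 2 (2 : ℚ) = 1 := by
        have := padicValRat.self (p := 2) (by norm_num)
        exact_mod_cast this
      rw [e1, e2, e3]
      ring
    unfold kap
    rw [hv]
    simp

/-- finite partial isomorphisms respecting `Q` -/
def CPI (Q : ℕ → ℕ → Prop) : Type :=
  {f : Finset (ℚ × ℚ) // (∀ p ∈ f, ∀ q ∈ f, (p.1 < q.1 ↔ p.2 < q.2)) ∧
    ∀ p ∈ f, Q (kap p.1) (kap p.2)}

instance (Q : ℕ → ℕ → Prop) : Preorder (CPI Q) := Subtype.preorder _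

theorem cpi_inj {Q : ℕ → ℕ → Prop} (f : CPI Q) {p q : ℚ × ℚ} (hp : p ∈ f.1) (hq : q ∈ f.1) :
    p.1 = q.1 ↔ p.2 = q.2 := by
  have h1 := f.2.1 p hp q hq
  have h2 := f.2.1 q hq p hp
  constructor
  · intro h
    rw [h] at h1 h2
    exact le_antisymm (not_lt.1 (fun h' => lt_irrefl _ (h2.2 h')))
      (not_lt.1 (fun h' => lt_irrefl _ (h1.2 h')))
  · intro h
    rw [h] at h1 h2
    exact le_antisymm (not_lt.1 (fun h' => lt_irrefl _ (h2.1 h')))
      (not_lt.1 (fun h' => lt_irrefl _ (h1.1 h')))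

theorem across {Q : ℕ → ℕ → Prop} (h1 : ∀ n, ∃ m, Q n m) (f : CPI Q) (a : ℚ) :
    ∃ g : CPI Q, f ≤ g ∧ ∃ b, (a, b) ∈ g.1 := by
  classical
  by_cases ha : ∃ b, (a, b) ∈ f.1
  · exact ⟨f, le_refl _, ha⟩
  push Not at ha
  have hne : ∀ p ∈ f.1, p.1 ≠ a := by
    rintro ⟨p1, p2⟩ hp rfl
    exact ha p2 hp
  let lo : Finset ℚ := (f.1.filter (fun p => p.1 < a)).image Prod.snd
  let hi : Finset ℚ := (f.1.filter (fun p => a < p.1)).image Prod.snd
  have hlo : ∀ p ∈ f.1, p.1 < a → p.2 ∈ lo := fun p hp hpa =>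
    Finset.mem_image.2 ⟨p, Finset.mem_filter.2 ⟨hp, hpa⟩, rfl⟩
  have hhi : ∀ p ∈ f.1, a < p.1 → p.2 ∈ hi := fun p hp hpa =>
    Finset.mem_image.2 ⟨p, Finset.mem_filter.2 ⟨hp, hpa⟩, rfl⟩
  have hlh : ∀ x ∈ lo, ∀ y ∈ hi, x < y := by
    intro x hx y hy
    obtain ⟨p, hp, rfl⟩ := Finset.mem_image.1 hx
    obtain ⟨q, hq, rfl⟩ := Finset.mem_image.1 hy
    obtain ⟨hp1, hp2⟩ := Finset.mem_filter.1 hp
    obtain ⟨hq1, hq2⟩ := Finset.mem_filter.1 hq
    exact (f.2.1 p hp1 q hq1).1 (hp2.trans hq2)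
  obtain ⟨m1, hm1, hm1'⟩ := Order.exists_between_finsets lo hi hlh
  obtain ⟨m2, hm2, hm2'⟩ := Order.exists_between_finsets (insert m1 lo) hi (by
    intro x hx y hy
    rcases Finset.mem_insert.1 hx with rfl | hx
    · exact hm1' y hy
    · exact hlh x hx y hy)
  obtain ⟨c, hc⟩ := h1 (kap a)
  obtain ⟨b, hb1, hb2, hb3⟩ := kap_dense c m1 m2 (hm2 m1 (Finset.mem_insert_self _ _))
  have hbl : ∀ p ∈ f.1, p.1 < a → p.2 < b := fun p hp hpa => (hm1 _ (hlo p hp hpa)).trans hb1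
  have hbh : ∀ p ∈ f.1, a < p.1 → b < p.2 := fun p hp hpa => hb2.trans (hm2' _ (hhi p hp hpa))
  refine ⟨⟨insert (a, b) f.1, ?_, ?_⟩, ?_, b, Finset.mem_insert_self _ _⟩
  · intro p hp q hq
    rcases Finset.mem_insert.1 hp with rfl | hp
    · rcases Finset.mem_insert.1 hq with rfl | hq
      · simp
      · rcases lt_or_gt_of_ne (hne q hq) with h | h
        · exact ⟨fun h' => absurd h' (not_lt.2 h.le), fun h' => absurd h' (not_lt.2 (hbl q hq h).le)⟩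
        · exact ⟨fun _ => hbh q hq h, fun _ => h⟩
    · rcases Finset.mem_insert.1 hq with rfl | hq
      · rcases lt_or_gt_of_ne (hne p hp) with h | h
        · exact ⟨fun _ => hbl p hp h, fun _ => h⟩
        · exact ⟨fun h' => absurd h' (not_lt.2 h.le), fun h' => absurd h' (not_lt.2 (hbh p hp h).le)⟩
      · exact f.2.1 p hp q hq
  · intro p hp
    rcases Finset.mem_insert.1 hp with rfl | hp
    · rw [hb3]; exact hc
    · exact f.2.2 p hp
  · exact Finset.subset_insert _ _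

/-- swap -/
def CPI.swap {Q : ℕ → ℕ → Prop} (f : CPI Q) : CPI (fun m n => Q n m) :=
  ⟨f.1.image Prod.swap, by
    constructor
    · intro p hp q hq
      obtain ⟨p', hp', rfl⟩ := Finset.mem_image.1 hp
      obtain ⟨q', hq', rfl⟩ := Finset.mem_image.1 hq
      exact (f.2.1 p' hp' q' hq').symm
    · intro p hp
      obtain ⟨p', hp', rfl⟩ := Finset.mem_image.1 hp
      exact f.2.2 p' hp'⟩

theorem across' {Q : ℕ → ℕ → Prop} (h1 : ∀ m, ∃ n, Q n m) (f : CPI Q) (b : ℚ) :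
    ∃ g : CPI Q, f ≤ g ∧ ∃ a, (a, b) ∈ g.1 := by
  obtain ⟨g, hg, a, ha⟩ := across (Q := fun m n => Q n m) h1 f.swap b
  refine ⟨g.swap, ?_, a, ?_⟩
  · intro p hp
    refine Finset.mem_image.2 ⟨p.swap, hg (Finset.mem_image.2 ⟨p, hp, rfl⟩), by simp⟩
  · exact Finset.mem_image.2 ⟨_, ha, rfl⟩

theorem t_colour : StColour := by
  refine ⟨kap, ?_, ?_⟩
  · intro n
    obtain ⟨q, -, -, h⟩ := kap_dense n 0 1 (by norm_num)
    exact ⟨q, h⟩
  intro Q h1 h2
  let C : ℚ ⊕ ℚ → Order.Cofinal (CPI Q) := fun p => p.elim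
    (fun a => ⟨{g | ∃ b, (a, b) ∈ g.1}, fun f => by
      obtain ⟨g, hg, hb⟩ := across h1 f a
      exact ⟨g, hb, hg⟩⟩)
    (fun b => ⟨{g | ∃ a, (a, b) ∈ g.1}, fun f => by
      obtain ⟨g, hg, hb⟩ := across' h2 f b
      exact ⟨g, hb, hg⟩⟩)
  let f0 : CPI Q := ⟨∅, by simp, by simp⟩
  let I := Order.idealOfCofinals f0 C
  have hF : ∀ a : ℚ, ∃ b, ∃ f ∈ I, (a, b) ∈ f.1 := by
    intro a
    obtain ⟨f, hf, hfI⟩ := Order.cofinal_meets_idealOfCofinals f0 C (Sum.inl a)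
    obtain ⟨b, hb⟩ := hf
    exact ⟨b, f, hfI, hb⟩
  have hG : ∀ b : ℚ, ∃ a, ∃ f ∈ I, (a, b) ∈ f.1 := by
    intro b
    obtain ⟨f, hf, hfI⟩ := Order.cofinal_meets_idealOfCofinals f0 C (Sum.inr b)
    obtain ⟨a, ha⟩ := hf
    exact ⟨a, f, hfI, ha⟩
  choose F hF using hF
  have hlt : ∀ a a', a < a' ↔ F a < F a' := by
    intro a a'
    obtain ⟨f, hf, hfa⟩ := hF a
    obtain ⟨g, hg, hga⟩ := hF a'
    obtain ⟨m, hm, hfm, hgm⟩ := I.directed _ hf _ hg
    exact m.2.1 (a, F a) (hfm hfa) (a', F a') (hgm hga)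
  have hsm : StrictMono F := fun a a' h => (hlt a a').1 h
  have hsurj : Function.Surjective F := by
    intro b
    obtain ⟨a, g, hg, hga⟩ := hG b
    obtain ⟨f, hf, hfa⟩ := hF a
    obtain ⟨m, hm, hfm, hgm⟩ := I.directed _ hf _ hg
    exact ⟨a, (cpi_inj m (hfm hfa) (hgm hga)).1 rfl⟩
  refine ⟨hsm.orderIsoOfSurjective F hsurj, ?_⟩
  intro q
  obtain ⟨f, hf, hfa⟩ := hF q
  exact f.2.2 _ hfa

end Pool.Agent.W919.CB
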