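import Pool.Agent.W919.CB.Coding

/-!
# Decoding
-/

namespace Pool.Agent.W919.CB
open Set

theorem lt_append {s : List ℚ} (q : ℚ) : s < s ++ [q] := by
  induction s with
  | nil => simp
  | cons a s ih =>
    rw [List.cons_append, List.cons_lt_cons_iff]
    exact Or.inr ⟨rfl, ih⟩

theorem list_dense : ∀ s t : List ℚ, s < t → ∃ u, s < u ∧ u < t := by
  intro s
  induction s with
  | nil =>
    intro t ht
    cases t with
    | nil => exact absurd ht (lt_irrefl _)
    | cons b r =>
      refine ⟨[b - 1], by simp, ?_⟩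
      rw [List.cons_lt_cons_iff]
      exact Or.inl (by linarith)
  | cons a s ih =>
    intro t ht
    cases t with
    | nil => simp at ht
    | cons b t =>
      rw [List.cons_lt_cons_iff] at ht
      rcases ht with h | ⟨rfl, h⟩
      · refine ⟨a :: (s ++ [0]), ?_, ?_⟩
        · rw [List.cons_lt_cons_iff]
          exact Or.inr ⟨rfl, lt_append 0⟩
        · rw [List.cons_lt_cons_iff]
          exact Or.inl h
      · obtain ⟨u, h1, h2⟩ := ih t h
        refine ⟨a :: u, ?_, ?_⟩
        · rw [List.cons_lt_cons_iff]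
          exact Or.inr ⟨rfl, h1⟩
        · rw [List.cons_lt_cons_iff]
          exact Or.inr ⟨rfl, h2⟩

instance : DenselyOrdered (List ℚ) := ⟨list_dense⟩

theorem t_tree : StTree := by
  have key : ∀ (s u r : List ℚ), u.length = s.length → s < u → s ++ r < u := by
    intro s
    induction s with
    | nil =>
      intro u r hu h
      rw [List.length_nil, List.length_eq_zero_iff] at hu
      subst hu
      exact absurd h (lt_irrefl _)
    | cons a s ih =>
      intro u r hu h
      cases u with
      | nil => simp at hu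
      | cons b u =>
        rw [List.cons_append, List.cons_lt_cons_iff]
        rw [List.cons_lt_cons_iff] at h
        rcases h with h | ⟨rfl, h⟩
        · exact Or.inl h
        · exact Or.inr ⟨rfl, ih u r (by simpa using hu) h⟩
  have key2 : ∀ (s u r : List ℚ), u.length = s.length → u ≤ s ++ r → u ≤ s := by
    intro s u r hu h
    by_contra hc
    exact absurd (key s u r hu (not_le.1 hc)) (not_lt.2 h)
  intro Φ hΦ s q
  have hlen : (Φ (s ++ [q])).length = s.length + 1 := by rw [hΦ]; simp
  have hne : Φ (s ++ [q]) ≠ [] := by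
    intro h
    rw [h] at hlen
    simp at hlen
  obtain ⟨t', q', ht⟩ : ∃ t' q', Φ (s ++ [q]) = t' ++ [q'] :=
    ⟨_, _, (List.dropLast_append_getLast hne).symm⟩
  have htl : t'.length = s.length := by
    rw [ht] at hlen
    simpa using hlen
  refine ⟨q', ?_⟩
  rw [ht]
  congr 1
  apply le_antisymm
  · have h1 : Φ.symm t' ≤ s := by
      apply key2 s _ [q]
      · rw [← hΦ, OrderIso.apply_symm_apply, htl]
      · rw [OrderIso.symm_apply_le, ht]
        exact (lt_append q').le
    exact (Φ.symm_apply_le).1 h1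
  · apply key2 t' _ [q']
    · rw [hΦ, htl]
    · rw [← ht]
      exact Φ.monotone (lt_append q).le

/-- finitely many elements between -/
def Near (sz : List ℚ → ℕ) (e e' : List ℚ × ℕ) : Prop :=
  {x | blt sz e x ∧ blt sz x e'}.Finite ∧ {x | blt sz e' x ∧ blt sz x e}.Finite

theorem near_iff_aux (sz : List ℚ → ℕ) (e e' : List ℚ × ℕ)
    (h : {x | blt sz e x ∧ blt sz x e'}.Finite) (h' : {x | blt sz e' x ∧ blt sz x e}.Finite) :
    e.1 = e'.1 ∧ (e.2 < sz e.1 ↔ e'.2 < sz e.1) := by
  have key : ∀ e e' : List ℚ × ℕ, {x | blt sz e x ∧ blt sz x e'}.Finite → ¬ e.1 < e'.1 := by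
    intro e e' h hlt
    have h1 : (Ioo e.1 e'.1).Infinite := Ioo_infinite hlt
    apply h1
    refine (h.image Prod.fst).subset ?_
    intro u hu
    exact ⟨(u, 0), ⟨Or.inl hu.1, Or.inl hu.2⟩, rfl⟩
  have key2 : ∀ (s : List ℚ) (i j : ℕ), {x | blt sz (s, i) x ∧ blt sz x (s, j)}.Finite →
      i < sz s → j < sz s := by
    intro s i j h hi
    by_contra hj
    have h1 : (Ioi j).Infinite := Ioi_infinite j
    apply h1
    refine (h.image Prod.snd).subset ?_
    intro k hk
    have hk' : j < k := hk
    refine ⟨(s, k), ⟨Or.inr ⟨rfl, ?_⟩, Or.inr ⟨rfl, ?_⟩⟩, rfl⟩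
    · simp only
      omega
    · simp only
      omega
  have h1 : e.1 = e'.1 := le_antisymm (not_lt.1 (key _ _ h')) (not_lt.1 (key _ _ h))
  obtain ⟨s, i⟩ := e
  obtain ⟨s', j⟩ := e'
  simp only at h1
  subst h1
  exact ⟨rfl, key2 s i j h, key2 s j i h'⟩

theorem near_iff (sz : List ℚ → ℕ) (e e' : List ℚ × ℕ) :
    Near sz e e' ↔ e.1 = e'.1 ∧ (e.2 < sz e.1 ↔ e'.2 < sz e.1) := by
  constructor
  · rintro ⟨h, h'⟩
    exact near_iff_aux sz e e' h h'
  · have key : ∀ (s : List ℚ) (i j : ℕ), (i < sz s ↔ j < sz s) →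
        {x | blt sz (s, i) x ∧ blt sz x (s, j)}.Finite := by
      intro s i j hij
      have hfin : ((fun k : ℕ => (s, k)) '' (Iic (max (max i j) (sz s)))).Finite :=
        (finite_Iic _).image _
      refine hfin.subset ?_
      rintro ⟨t, k⟩ ⟨h1, h2⟩
      unfold blt at h1 h2
      simp only at h1 h2
      have hst : s = t := by
        rcases h1 with h1 | ⟨h1, -⟩
        · rcases h2 with h2 | ⟨h2, -⟩
          · exact absurd (lt_trans h1 h2) (lt_irrefl _)
          · exact h2.symm
        · exact h1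
      subst hst
      simp only [lt_irrefl, false_or, true_and] at h1 h2
      refine ⟨k, ?_, rfl⟩
      rw [mem_Iic]
      omega
    rintro ⟨h1, h2⟩
    obtain ⟨s, i⟩ := e
    obtain ⟨s', j⟩ := e'
    simp only at h1 h2
    subst h1
    exact ⟨key s i j h2, key s j i h2.symm⟩

theorem near_class (sz : List ℚ → ℕ) (s : List ℚ) (i : ℕ) (hi : i < sz s) :
    {e' | Near sz (s, i) e'}.Finite ∧ {e' | Near sz (s, i) e'}.ncard = sz s := by
  have : {e' | Near sz (s, i) e'} = (fun k : ℕ => (s, k)) '' (Iio (sz s)) := by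
    ext ⟨t, k⟩
    rw [mem_setOf_eq, near_iff]
    simp only [hi, true_iff, mem_image, mem_Iio, Prod.mk.injEq]
    constructor
    · rintro ⟨rfl, h⟩
      exact ⟨k, h, rfl, rfl⟩
    · rintro ⟨_, h, rfl, rfl⟩
      exact ⟨rfl, h⟩
  rw [this]
  refine ⟨(finite_Iio _).image _, ?_⟩
  rw [ncard_image_of_injective]
  · rw [← Nat.card_coe_set_eq]
    simp
  · intro a b h
    simpa using h

theorem near_class' (sz : List ℚ → ℕ) (e : List ℚ × ℕ) (h : {e' | Near sz e e'}.Finite) :
    e.2 < sz e.1 := by
  by_contra hc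
  have h1 : (Ici (sz e.1)).Infinite := Ici_infinite _
  apply h1
  refine (h.image Prod.snd).subset ?_
  intro k hk
  refine ⟨(e.1, k), ?_, rfl⟩
  rw [mem_setOf_eq, near_iff]
  refine ⟨rfl, ?_⟩
  have hk' : sz e.1 ≤ k := hk
  simp only
  omega

theorem t_decode : StDecode := by
  intro sz sz' h1 h1' φ hφ
  have hset : ∀ e e', {x | blt sz' (φ e) x ∧ blt sz' x (φ e')} =
      φ '' {x | blt sz e x ∧ blt sz x e'} := by
    intro e e'
    ext x
    constructor
    · rintro ⟨hx1, hx2⟩
      refine ⟨φ.symm x, ⟨?_, ?_⟩, by simp⟩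
      · rw [hφ]; simpa using hx1
      · rw [hφ]; simpa using hx2
    · rintro ⟨y, ⟨hy1, hy2⟩, rfl⟩
      exact ⟨(hφ _ _).1 hy1, (hφ _ _).1 hy2⟩
  have hnear : ∀ e e', Near sz e e' ↔ Near sz' (φ e) (φ e') := by
    intro e e'
    unfold Near
    rw [hset, hset, finite_image_iff φ.injective.injOn, finite_image_iff φ.injective.injOn]
  have hcls : ∀ e, {e' | Near sz' (φ e) e'} = φ '' {e' | Near sz e e'} := by
    intro e
    ext x
    constructor
    · intro hx
      refine ⟨φ.symm x, ?_, by simp⟩
      rw [mem_setOf_eq, hnear]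
      simpa using hx
    · rintro ⟨y, hy, rfl⟩
      exact (hnear _ _).1 hy
  -- the finite classes
  have hfin : ∀ e, e.2 < sz e.1 ↔ (φ e).2 < sz' (φ e).1 := by
    intro e
    constructor
    · intro he
      apply near_class'
      rw [hcls]
      exact ((near_class sz e.1 e.2 he).1).image _
    · intro he
      apply near_class'
      have := (near_class sz' (φ e).1 (φ e).2 he).1
      change {e' | Near sz' (φ e) e'}.Finite at this
      rw [hcls, finite_image_iff φ.injective.injOn] at this
      exact this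
  have hcard : ∀ e, e.2 < sz e.1 → sz' (φ e).1 = sz e.1 := by
    intro e he
    have h2 := (near_class sz e.1 e.2 he).2
    have h3 := (near_class sz' (φ e).1 (φ e).2 ((hfin e).1 he)).2
    change {e' | Near sz' (φ e) e'}.ncard = _ at h3
    rw [hcls, ncard_image_of_injective _ φ.injective] at h3
    exact h3.symm.trans h2
  let Φ : List ℚ → List ℚ := fun s => (φ (s, 0)).1
  have h0 : ∀ s, ((s, 0) : List ℚ × ℕ).2 < sz ((s, 0) : List ℚ × ℕ).1 := fun s => h1 s
  have hmono : StrictMono Φ := by
    intro s t hst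
    have hb : blt sz (s, 0) (t, 0) := Or.inl hst
    rcases (hφ _ _).1 hb with h | ⟨h, -⟩
    · exact h
    · exfalso
      have : Near sz' (φ (s, 0)) (φ (t, 0)) := by
        rw [near_iff]
        refine ⟨h, ?_⟩
        have a1 := (hfin _).1 (h0 s)
        have a2 := (hfin _).1 (h0 t)
        rw [← h] at a2
        exact ⟨fun _ => a2, fun _ => a1⟩
      rw [← hnear, near_iff] at this
      exact absurd this.1 (ne_of_lt hst)
  have hsurj : Function.Surjective Φ := by
    intro t
    refine ⟨(φ.symm (t, 0)).1, ?_⟩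
    have a1 : (φ.symm (t, 0)).2 < sz (φ.symm (t, 0)).1 := by
      rw [hfin]
      have := h1' t
      simp only [Equiv.apply_symm_apply]
      omega
    have a2 : Near sz ((φ.symm (t, 0)).1, 0) (φ.symm (t, 0)) := by
      rw [near_iff]
      exact ⟨rfl, fun _ => a1, fun _ => h1 _⟩
    rw [hnear, near_iff] at a2
    have := a2.1
    simpa using this
  refine ⟨hmono.orderIsoOfSurjective Φ hsurj, ?_⟩
  intro s
  exact hcard (s, 0) (h0 s)

end Pool.Agent.W919.CB
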