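import Pool.Agent.W919.CB.Asm

/-!
# The rank statements: invariance under bi-embeddability and consequences of self-embeddings
-/

namespace Pool.Agent.W919.CB
open Set

section
variable {α β : Type} [LinearOrder α] [LinearOrder β]

theorem isoS_symm {S : Set α} {T : Set β} (h : IsoS S T) : IsoS T S := ⟨h.some.symm⟩

theorem isoIoo {f : α → β} (hf : CEmb α β f) (a b : α) : IsoS (Ioo a b) (Ioo (f a) (f b)) := by
  apply isoS_image hf
  · rintro p ⟨h1, h2⟩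
    exact ⟨hf.strictMono h1, hf.strictMono h2⟩
  · rintro q ⟨h1, h2⟩
    obtain ⟨p, rfl⟩ := hf.2.out ⟨a, rfl⟩ ⟨b, rfl⟩ ⟨h1.le, h2.le⟩
    exact ⟨p, ⟨hf.strictMono.lt_iff_lt.1 h1, hf.strictMono.lt_iff_lt.1 h2⟩, rfl⟩

theorem isoIoi {f : α → β} (hf : CEmb α β f) (hu : IsUpperSet (range f)) (a : α) :
    IsoS (Ioi a) (Ioi (f a)) := by
  apply isoS_image hf
  · intro p h1
    exact hf.strictMono h1
  · intro q h1
    obtain ⟨p, rfl⟩ := hu (mem_Ioi.1 h1).le ⟨a, rfl⟩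
    exact ⟨p, hf.strictMono.lt_iff_lt.1 h1, rfl⟩

end

theorem t_gaminv (h1 : StEFinv) (_h2 : StEFiso) : StGamInv := by
  intro α β _ _ f g γ hf hg
  have F := hf.strictMono
  have G := hg.strictMono
  have tr : ∀ (δ : Ordinal.{0}) (a b : β) (c d : α), EF δ (Ioo (g a) (g b)) (Ioo c d) →
      EF δ (Ioo a b) (Ioo (f c) (f d)) := fun δ a b c d h =>
    h1 _ _ _ _ δ _ _ _ _ (isoS_symm (isoIoo hg a b)) (isoIoo hf c d) h
  refine ⟨?_, ?_, ?_, ?_⟩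
  · intro h z0 z w hz hw δ hδ
    obtain ⟨z0', z', w', y, a1, a2, a3, e1, e2, e3⟩ := h (g z0) (g z) (g w) (G hz) (G hw) δ hδ
    refine ⟨f z0', f z', f w', f y, F a1, F a2, F a3, tr _ _ _ _ _ e1, tr _ _ _ _ _ e2, ?_⟩
    intro v hv ε hε
    obtain ⟨v', b1, b2, b3⟩ := e3 (g v) (G hv) ε hε
    exact ⟨f v', F b1, F b2, tr _ _ _ _ _ b3⟩
  · intro h z w w0 hz hw δ hδ
    obtain ⟨x, z', w', w0', a1, a2, a3, e1, e2, e3⟩ := h (g z) (g w) (g w0) (G hz) (G hw) δ hδ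
    refine ⟨f x, f z', f w', f w0', F a1, F a2, F a3, tr _ _ _ _ _ e1, tr _ _ _ _ _ e2, ?_⟩
    intro v hv ε hε
    obtain ⟨v', b1, b2, b3⟩ := e3 (g v) (G hv) ε hε
    exact ⟨f v', F b1, F b2, tr _ _ _ _ _ b3⟩
  · intro h z w hz δ hδ
    obtain ⟨x, z', w', y, a1, a2, a3, e1, e2, e3⟩ := h (g z) (g w) (G hz) δ hδ
    refine ⟨f x, f z', f w', f y, F a1, F a2, F a3, tr _ _ _ _ _ e1, ?_, ?_⟩
    · intro v hv ε hε
      obtain ⟨v', b1, b2, b3⟩ := e2 (g v) (G hv) ε hε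
      exact ⟨f v', F b1, F b2, tr _ _ _ _ _ b3⟩
    · intro v hv ε hε
      obtain ⟨v', b1, b2, b3⟩ := e3 (g v) (G hv) ε hε
      exact ⟨f v', F b1, F b2, tr _ _ _ _ _ b3⟩
  · intro uf ug h z δ hδ
    obtain ⟨x, y, a1, e1, e2⟩ := h (g z) δ hδ
    refine ⟨f x, f y, F a1, ?_, ?_⟩
    · exact h1 _ _ _ _ δ _ _ _ _ (isoS_symm (isoIoi hg ug z)) (isoIoi hf uf y) e1
    · intro v hv ε hε
      obtain ⟨v', b1, b2, b3⟩ := e2 (g v) (G hv) ε hε
      exact ⟨f v', F b1, F b2, tr _ _ _ _ _ b3⟩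

/-- an order isomorphism onto a convex subset as a convex embedding -/
theorem cemb_sub {α : Type} [LinearOrder α] {T : Set α} (hT : T.OrdConnected) (e : α ≃o T) :
    CEmb α α (fun t => (e t : α)) ∧ range (fun t => (e t : α)) = T := by
  have hr : range (fun t => (e t : α)) = T := by
    ext x
    constructor
    · rintro ⟨t, rfl⟩
      exact (e t).2
    · intro hx
      exact ⟨e.symm ⟨x, hx⟩, by simp⟩
  refine ⟨⟨fun a b => ?_, ?_⟩, hr⟩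
  · exact e.le_iff_le
  · rw [hr]
    exact hT

theorem t_gamSA (h1 : StEFinv) (h2 : StEFiso) : StGamSA := by
  intro α _ γ
  have refl : ∀ (S : Set α), IsoS S S := fun S => ⟨OrderIso.refl _⟩
  refine ⟨?_, ?_, ?_, ?_⟩
  · rintro ⟨y, T, hT, hl, ⟨e⟩⟩ z0 z w hz hw δ hδ
    obtain ⟨hk, hr⟩ := cemb_sub hl.ordConnected e
    have K := hk.strictMono
    refine ⟨e z0, e z, e w, y, K hz, K hw, hT (e w).2, h2 _ _ _ _ _ (isoIoo hk _ _),
      h2 _ _ _ _ _ (isoIoo hk _ _), ?_⟩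
    intro v hv ε hε
    exact ⟨e v, K hv, hT (e v).2, h2 _ _ _ _ _ (isoIoo hk _ _)⟩
  · rintro ⟨x, T, hT, hl, ⟨e⟩⟩ z δ hδ
    obtain ⟨hk, hr⟩ := cemb_sub hl.ordConnected e
    have K := hk.strictMono
    refine ⟨x, e z, hT (e z).2, h2 _ _ _ _ _ (isoIoi hk (by rw [hr]; exact hl) _), ?_⟩
    intro u hu ε hε
    exact ⟨e u, hT (e u).2, K hu, h2 _ _ _ _ _ (isoIoo hk _ _)⟩
  · rintro ⟨x, T, hT, hl, ⟨e⟩⟩ hA z w hz δ hδ
    obtain ⟨hk, hr⟩ := cemb_sub hl.ordConnected e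
    have K := hk.strictMono
    obtain ⟨z0', z', w', y, a1, a2, a3, e1, e2, e3⟩ := hA x (e z) (e w) (hT (e z).2) (K hz) δ hδ
    have tr : ∀ (δ : Ordinal.{0}) (a b : α) (c d : α), EF δ (Ioo (e a : α) (e b)) (Ioo c d) →
        EF δ (Ioo a b) (Ioo c d) := fun δ a b c d h =>
      h1 _ _ _ _ δ _ _ _ _ (isoS_symm (isoIoo hk a b)) (refl _) h
    refine ⟨z0', z', w', y, a1, a2, a3, tr _ _ _ _ _ e2, ?_, ?_⟩
    · intro u hu ε hε
      rw [EF] at e1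
      obtain ⟨b, hb, -, hb2⟩ := (e1 ε hε).1 (e u) ⟨hT (e u).2, K hu⟩
      refine ⟨b, hb.1, hb.2, tr _ _ _ _ _ ?_⟩
      have s1 : Ioo x (e z : α) ∩ Ioi (e u : α) = Ioo (e u : α) (e z) := by
        ext t
        constructor
        · rintro ⟨h, h'⟩
          exact ⟨h', h.2⟩
        · rintro ⟨h, h'⟩
          exact ⟨⟨lt_trans (hT (e u).2) h, h'⟩, h⟩
      have s2 : Ioo z0' z' ∩ Ioi b = Ioo b z' := by
        ext t
        constructor
        · rintro ⟨h, h'⟩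
          exact ⟨h', h.2⟩
        · rintro ⟨h, h'⟩
          exact ⟨⟨hb.1.trans h, h'⟩, h⟩
      rw [s1, s2] at hb2
      exact hb2
    · intro v hv ε hε
      obtain ⟨v', b1, b2, b3⟩ := e3 (e v) (K hv) ε hε
      exact ⟨v', b1, b2, tr _ _ _ _ _ b3⟩
  · rintro ⟨y, T, hT, hl, ⟨e⟩⟩ hB z w hz δ hδ
    obtain ⟨hk, hr⟩ := cemb_sub hl.ordConnected e
    have K := hk.strictMono
    obtain ⟨x, z', w', w0', a1, a2, a3, e1, e2, e3⟩ := hB (e z) (e w) y (K hz) (hT (e w).2) δ hδ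
    have tr : ∀ (δ : Ordinal.{0}) (a b : α) (c d : α), EF δ (Ioo (e a : α) (e b)) (Ioo c d) →
        EF δ (Ioo a b) (Ioo c d) := fun δ a b c d h =>
      h1 _ _ _ _ δ _ _ _ _ (isoS_symm (isoIoo hk a b)) (refl _) h
    refine ⟨x, z', w', w0', a1, a2, a3, tr _ _ _ _ _ e1, ?_, ?_⟩
    · intro u hu ε hε
      obtain ⟨v', b1, b2, b3⟩ := e3 (e u) (K hu) ε hε
      exact ⟨v', b1, b2, tr _ _ _ _ _ b3⟩
    · intro v hv ε hε
      rw [EF] at e2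
      obtain ⟨b, hb, hb1, -⟩ := (e2 ε hε).1 (e v) ⟨K hv, hT (e v).2⟩
      refine ⟨b, hb.1, hb.2, tr _ _ _ _ _ ?_⟩
      have s1 : Ioo (e w : α) y ∩ Iio (e v : α) = Ioo (e w : α) (e v) := by
        ext t
        constructor
        · rintro ⟨h, h'⟩
          exact ⟨h.1, h'⟩
        · rintro ⟨h, h'⟩
          exact ⟨⟨h, lt_trans h' (hT (e v).2)⟩, h'⟩
      have s2 : Ioo w' w0' ∩ Iio b = Ioo w' b := by
        ext t
        constructor
        · rintro ⟨h, h'⟩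
          exact ⟨h.1, h'⟩
        · rintro ⟨h, h'⟩
          exact ⟨⟨h, h'.trans hb.2⟩, h'⟩
      rw [s1, s2] at hb1
      exact hb1

end Pool.Agent.W919.CB
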