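import Pool.Agent.W919.CB.Asm

/-!
# The rank statements for all ordinals; reversal
-/

namespace Pool.Agent.W919.CB
open Set

theorem pigeon {ι : Type} (P : ι → Ordinal.{0} → Prop) (hm : ∀ i γ δ, δ ≤ γ → P i γ → P i δ)
    (h : ∀ γ, ∃ i, P i γ) : ∃ i, ∀ γ, P i γ := by
  by_contra hc
  push Not at hc
  choose g hg using hc
  obtain ⟨i, hi⟩ := h (⨆ i, g i)
  exact hg i (hm i _ _ (Ordinal.le_iSup g i) hi)

section
variable {α β : Type} [LinearOrder α] [LinearOrder β]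

theorem ef_anti {γ δ : Ordinal.{0}} {S : Set α} {T : Set β} (hd : δ ≤ γ) (h : EF γ S T) :
    EF δ S T := by
  rw [EF] at h ⊢
  exact fun ε hε => h ε (hε.trans_le hd)

end

theorem t_gamstar (h3 : StEFcount) : StGamStar := by
  intro α _ _
  constructor
  · intro h z w hzw
    let P : (α × α × α × α) → Ordinal.{0} → Prop := fun p δ =>
      p.1 < p.2.1 ∧ p.2.1 < p.2.2.1 ∧ p.2.2.1 < p.2.2.2 ∧
      EF δ (Ioo z w) (Ioo p.2.1 p.2.2.1) ∧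
      (∀ u < z, ∀ ε < δ, ∃ u', p.1 < u' ∧ u' < p.2.1 ∧ EF ε (Ioo u z) (Ioo u' p.2.1)) ∧
      (∀ v > w, ∀ ε < δ, ∃ v', p.2.2.1 < v' ∧ v' < p.2.2.2 ∧ EF ε (Ioo w v) (Ioo p.2.2.1 v'))
    obtain ⟨⟨x, z', w', y⟩, hp⟩ := pigeon P (by
        rintro p γ δ hd ⟨a1, a2, a3, a4, a5, a6⟩
        exact ⟨a1, a2, a3, ef_anti hd a4, fun u hu ε hε => a5 u hu ε (hε.trans_le hd),
          fun u hu ε hε => a6 u hu ε (hε.trans_le hd)⟩)
      (by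
        intro δ
        obtain ⟨x, z', w', y, a⟩ := h (Order.succ δ) z w hzw δ (Order.lt_succ δ)
        exact ⟨(x, z', w', y), a⟩)
    obtain ⟨a1, a2, a3, -⟩ := hp 0
    refine ⟨x, z', w', y, a1, a2, a3, h3 _ _ _ _ fun γ => (hp γ).2.2.2.1, ?_, ?_⟩
    · intro u hu
      obtain ⟨u', hu'⟩ := pigeon (fun u' ε => x < u' ∧ u' < z' ∧ EF ε (Ioo u z) (Ioo u' z'))
        (fun _ _ _ hd a => ⟨a.1, a.2.1, ef_anti hd a.2.2⟩)
        (fun ε => (hp (Order.succ ε)).2.2.2.2.1 u hu ε (Order.lt_succ ε))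
      exact ⟨u', (hu' 0).1, (hu' 0).2.1, h3 _ _ _ _ fun γ => (hu' γ).2.2⟩
    · intro v hv
      obtain ⟨u', hu'⟩ := pigeon (fun u' ε => w' < u' ∧ u' < y ∧ EF ε (Ioo w v) (Ioo w' u'))
        (fun _ _ _ hd a => ⟨a.1, a.2.1, ef_anti hd a.2.2⟩)
        (fun ε => (hp (Order.succ ε)).2.2.2.2.2 v hv ε (Order.lt_succ ε))
      exact ⟨u', (hu' 0).1, (hu' 0).2.1, h3 _ _ _ _ fun γ => (hu' γ).2.2⟩
  · intro h z
    let P : (α × α) → Ordinal.{0} → Prop := fun p δ =>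
      p.1 < p.2 ∧ EF δ (Ioi z) (Ioi p.2) ∧
      (∀ u < z, ∀ ε < δ, ∃ u', p.1 < u' ∧ u' < p.2 ∧ EF ε (Ioo u z) (Ioo u' p.2))
    obtain ⟨⟨x, y⟩, hp⟩ := pigeon P (by
        rintro p γ δ hd ⟨a1, a2, a3⟩
        exact ⟨a1, ef_anti hd a2, fun u hu ε hε => a3 u hu ε (hε.trans_le hd)⟩)
      (by
        intro δ
        obtain ⟨x, y, a⟩ := h (Order.succ δ) z δ (Order.lt_succ δ)
        exact ⟨(x, y), a⟩)
    obtain ⟨a1, -⟩ := hp 0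
    refine ⟨x, y, a1, h3 _ _ _ _ fun γ => (hp γ).2.1, ?_⟩
    intro u hu
    obtain ⟨u', hu'⟩ := pigeon (fun u' ε => x < u' ∧ u' < y ∧ EF ε (Ioo u z) (Ioo u' y))
      (fun _ _ _ hd a => ⟨a.1, a.2.1, ef_anti hd a.2.2⟩)
      (fun ε => (hp (Order.succ ε)).2.2 u hu ε (Order.lt_succ ε))
    exact ⟨u', (hu' 0).1, (hu' 0).2.1, h3 _ _ _ _ fun γ => (hu' γ).2.2⟩

/-! ## Reversal -/

section
variable {α α' : Type} [LinearOrder α] [LinearOrder α']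

theorem im_iio (f : α ≃ α') (hf : ∀ a b, f a < f b ↔ b < a) (S : Set α) (a : α) :
    f '' S ∩ Iio (f a) = f '' (S ∩ Ioi a) := by
  ext x
  constructor
  · rintro ⟨⟨y, hy, rfl⟩, hx⟩
    exact ⟨y, ⟨hy, (hf y a).1 hx⟩, rfl⟩
  · rintro ⟨y, ⟨hy, hya⟩, rfl⟩
    exact ⟨⟨y, hy, rfl⟩, (hf y a).2 hya⟩

theorem im_ioi (f : α ≃ α') (hf : ∀ a b, f a < f b ↔ b < a) (S : Set α) (a : α) :
    f '' S ∩ Ioi (f a) = f '' (S ∩ Iio a) := by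
  ext x
  constructor
  · rintro ⟨⟨y, hy, rfl⟩, hx⟩
    exact ⟨y, ⟨hy, (hf a y).1 hx⟩, rfl⟩
  · rintro ⟨y, ⟨hy, hya⟩, rfl⟩
    exact ⟨⟨y, hy, rfl⟩, (hf a y).2 hya⟩

theorem im_ioo (f : α ≃ α') (hf : ∀ a b, f a < f b ↔ b < a) (a b : α) :
    f '' Ioo a b = Ioo (f b) (f a) := by
  ext x
  constructor
  · rintro ⟨y, hy, rfl⟩
    exact ⟨(hf b y).2 hy.2, (hf y a).2 hy.1⟩
  · rintro ⟨h1, h2⟩
    obtain ⟨y, rfl⟩ := f.surjective x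
    exact ⟨y, ⟨(hf y a).1 h2, (hf b y).1 h1⟩, rfl⟩

theorem ef_dual (f : α ≃ α') (hf : ∀ a b, f a < f b ↔ b < a) (γ : Ordinal.{0}) :
    ∀ S T : Set α, EF γ S T → EF γ (f '' S) (f '' T) := by
  induction γ using WellFoundedLT.induction with
  | ind γ ih =>
    intro S T h
    rw [EF] at h
    rw [EF]
    intro δ hδ
    obtain ⟨h1, h2⟩ := h δ hδ
    constructor
    · rintro _ ⟨a, ha, rfl⟩
      obtain ⟨b, hb, e1, e2⟩ := h1 a ha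
      refine ⟨f b, ⟨b, hb, rfl⟩, ?_, ?_⟩
      · rw [im_iio f hf, im_iio f hf]
        exact ih δ hδ _ _ e2
      · rw [im_ioi f hf, im_ioi f hf]
        exact ih δ hδ _ _ e1
    · rintro _ ⟨a, ha, rfl⟩
      obtain ⟨b, hb, e1, e2⟩ := h2 a ha
      refine ⟨f b, ⟨b, hb, rfl⟩, ?_, ?_⟩
      · rw [im_iio f hf, im_iio f hf]
        exact ih δ hδ _ _ e2
      · rw [im_ioi f hf, im_ioi f hf]
        exact ih δ hδ _ _ e1

theorem ef_ioo_dual (f : α ≃ α') (hf : ∀ a b, f a < f b ↔ b < a) (γ : Ordinal.{0}) (a b c d : α)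
    (h : EF γ (Ioo a b) (Ioo c d)) : EF γ (Ioo (f b) (f a)) (Ioo (f d) (f c)) := by
  have := ef_dual f hf γ _ _ h
  rwa [im_ioo f hf, im_ioo f hf] at this

theorem gamdual1 (f : α ≃ α') (hf : ∀ a b, f a < f b ↔ b < a) (γ : Ordinal.{0})
    (h : GamA α γ) : GamB α' γ := by
  intro z w w0 hz hw δ hδ
  obtain ⟨z, rfl⟩ := f.surjective z
  obtain ⟨w, rfl⟩ := f.surjective w
  obtain ⟨w0, rfl⟩ := f.surjective w0
  obtain ⟨z0', z', w', y, a1, a2, a3, e1, e2, e3⟩ := h w0 w z ((hf _ _).1 hw) ((hf _ _).1 hz) δ hδ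
  refine ⟨f y, f w', f z', f z0', (hf _ _).2 a3, (hf _ _).2 a2, (hf _ _).2 a1,
    ef_ioo_dual f hf _ _ _ _ _ e2, ef_ioo_dual f hf _ _ _ _ _ e1, ?_⟩
  intro u hu ε hε
  obtain ⟨u, rfl⟩ := f.surjective u
  obtain ⟨v', b1, b2, b3⟩ := e3 u ((hf _ _).1 hu) ε hε
  exact ⟨f v', (hf _ _).2 b2, (hf _ _).2 b1, ef_ioo_dual f hf _ _ _ _ _ b3⟩

theorem gamdual2 (f : α ≃ α') (hf : ∀ a b, f a < f b ↔ b < a) (γ : Ordinal.{0})
    (h : GamB α γ) : GamA α' γ := by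
  intro z0 z w hz hw δ hδ
  obtain ⟨z, rfl⟩ := f.surjective z
  obtain ⟨w, rfl⟩ := f.surjective w
  obtain ⟨z0, rfl⟩ := f.surjective z0
  obtain ⟨x, z', w', w0', a1, a2, a3, e1, e2, e3⟩ := h w z z0 ((hf _ _).1 hw) ((hf _ _).1 hz) δ hδ
  refine ⟨f w0', f w', f z', f x, (hf _ _).2 a3, (hf _ _).2 a2, (hf _ _).2 a1,
    ef_ioo_dual f hf _ _ _ _ _ e2, ef_ioo_dual f hf _ _ _ _ _ e1, ?_⟩
  intro u hu ε hε
  obtain ⟨u, rfl⟩ := f.surjective u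
  obtain ⟨v', b1, b2, b3⟩ := e3 u ((hf _ _).1 hu) ε hε
  exact ⟨f v', (hf _ _).2 b2, (hf _ _).2 b1, ef_ioo_dual f hf _ _ _ _ _ b3⟩

end

/-- the identity from the reversed order -/
def revEq (L : LO) : Ty L.rev ≃ Ty L := Equiv.refl ℕ

/-- the identity to the reversed order -/
def revEq' (L : LO) : Ty L ≃ Ty L.rev := Equiv.refl ℕ

theorem t_gamrev : StGamRev := fun L γ =>
  ⟨gamdual1 (revEq L) (fun _ _ => Iff.rfl) γ, gamdual2 (revEq' L) (fun _ _ => Iff.rfl) γ⟩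

end Pool.Agent.W919.CB
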