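import Pool.Agent.W919.CB.Sys

/-!
# Three phase games
-/

namespace Pool.Agent.W919.CB
open Set

theorem aliveO_mono {G : Game} {γ δ : Ordinal.{0}} {σ : G.O} (h : δ ≤ γ) (h1 : G.AliveO γ σ) :
    G.AliveO δ σ := by
  unfold Game.AliveO at h1 ⊢
  intro ε hε
  exact h1 ε (hε.trans_le h)

theorem aliveO_iff {G : Game} {γ : Ordinal.{0}} {σ : G.O} :
    G.AliveO γ σ ↔ ∀ δ < γ, ∃ q, G.R σ q ∧ G.AliveA δ q := by
  rw [Game.AliveO]
  rfl

theorem aliveA_mono {G : Game} {γ δ : Ordinal.{0}} {p : G.A} (h : δ ≤ γ) (h1 : G.AliveA γ p) :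
    G.AliveA δ p := fun τ hτ => aliveO_mono h (h1 τ hτ)

theorem SameRanks.symm {G G' : Game} (h : SameRanks G G') : SameRanks G' G where
  A1 p' := by
    obtain ⟨p, hp⟩ := h.A2 p'
    exact ⟨p, fun γ => (hp γ).symm⟩
  A2 p := by
    obtain ⟨p', hp⟩ := h.A1 p
    exact ⟨p', fun γ => (hp γ).symm⟩
  O1 p' := by
    obtain ⟨p, hp⟩ := h.O2 p'
    exact ⟨p, fun γ => (hp γ).symm⟩
  O2 p := by
    obtain ⟨p', hp⟩ := h.O1 p
    exact ⟨p', fun γ => (hp γ).symm⟩

section Three
variable {U : Game} {I J : Type} {val : I → Prop} {res : I → J → Prop}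
  {leaf : I → J → U.O → Prop}

theorem three_baseO (γ : Ordinal.{0}) (σ : U.O) :
    (three U I J val res leaf).AliveO γ (.base σ) ↔ U.AliveO γ σ := by
  induction γ using WellFoundedLT.induction generalizing σ with
  | ind γ ih =>
    refine Iff.trans aliveO_iff (Iff.trans ?_ aliveO_iff.symm)
    constructor
    · intro h δ hδ
      obtain ⟨q, hq, hq'⟩ := h δ hδ
      cases q with
      | base p =>
        refine ⟨p, hq, ?_⟩
        intro τ hτ
        exact (ih δ hδ τ).1 (hq' (.base τ) hτ)
      | root => exact absurd hq id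
      | pos i j => exact absurd hq id
    · intro h δ hδ
      obtain ⟨p, hp, hp'⟩ := h δ hδ
      refine ⟨.base p, hp, ?_⟩
      intro τ hτ
      cases τ with
      | base τ => exact (ih δ hδ τ).2 (hp' τ hτ)
      | d => exact absurd hτ id
      | sig i => exact absurd hτ id

theorem three_baseA (γ : Ordinal.{0}) (p : U.A) :
    (three U I J val res leaf).AliveA γ (.base p) ↔ U.AliveA γ p := by
  constructor
  · intro h τ hτ
    exact (three_baseO γ τ).1 (h (.base τ) hτ)
  · intro h τ hτ
    cases τ with
    | base τ => exact (three_baseO γ τ).2 (h τ hτ)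
    | d => exact absurd hτ id
    | sig i => exact absurd hτ id

theorem three_root (γ : Ordinal.{0}) :
    (three U I J val res leaf).AliveA γ .root ↔
      (three U I J val res leaf).AliveO γ .d ∧
        ∀ i, val i → (three U I J val res leaf).AliveO γ (.sig i) := by
  constructor
  · intro h
    exact ⟨h .d trivial, fun i hi => h (.sig i) hi⟩
  · rintro ⟨h1, h2⟩ τ hτ
    cases τ with
    | base τ => exact absurd hτ id
    | d => exact h1
    | sig i => exact h2 i hτ

theorem three_pos (γ : Ordinal.{0}) (i : I) (j : J) :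
    (three U I J val res leaf).AliveA γ (.pos i j) ↔
      (∀ ω, leaf i j ω → U.AliveO γ ω) ∧ (three U I J val res leaf).AliveA γ .root := by
  rw [three_root]
  constructor
  · intro h
    exact ⟨fun ω hω => (three_baseO γ ω).1 (h (.base ω) hω), h .d trivial,
      fun i hi => h (.sig i) hi⟩
  · rintro ⟨h0, h1, h2⟩ τ hτ
    cases τ with
    | base τ => exact (three_baseO γ τ).2 (h0 τ hτ)
    | d => exact h1
    | sig i => exact h2 i hτ

theorem three_d (γ : Ordinal.{0}) :
    (three U I J val res leaf).AliveO γ .d ↔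
      ∀ δ < γ, (three U I J val res leaf).AliveA δ .root := by
  refine Iff.trans aliveO_iff ?_
  constructor
  · intro h δ hδ
    obtain ⟨q, hq, hq'⟩ := h δ hδ
    cases q with
    | base p => exact absurd hq id
    | root => exact hq'
    | pos i j => exact absurd hq id
  · intro h δ hδ
    exact ⟨.root, trivial, h δ hδ⟩

theorem three_sig (γ : Ordinal.{0}) (i : I) :
    (three U I J val res leaf).AliveO γ (.sig i) ↔
      ∀ δ < γ, val i ∧ ∃ j, res i j ∧ (three U I J val res leaf).AliveA δ (.pos i j) := by
  refine Iff.trans aliveO_iff ?_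
  constructor
  · intro h δ hδ
    obtain ⟨q, hq, hq'⟩ := h δ hδ
    cases q with
    | base p => exact absurd hq id
    | root => exact absurd hq id
    | pos i' j =>
      obtain ⟨rfl, h1, h2⟩ := hq
      exact ⟨h1, j, h2, hq'⟩
  · intro h δ hδ
    obtain ⟨h1, j, h2, h3⟩ := h δ hδ
    exact ⟨.pos i j, ⟨rfl, h1, h2⟩, h3⟩

theorem gam_mono {γ δ : Ordinal.{0}} (h : δ ≤ γ) (h1 : Gam U val res leaf γ) :
    Gam U val res leaf δ := fun i hi ε hε => h1 i hi ε (hε.trans_le h)

theorem three_gam (γ : Ordinal.{0}) :
    (three U I J val res leaf).AliveA γ .root ↔ Gam U val res leaf γ := by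
  induction γ using WellFoundedLT.induction with
  | ind γ ih =>
    constructor
    · intro h i hi δ hδ
      have h1 := ((three_root γ).1 h).2 i hi
      obtain ⟨-, j, hj, h2⟩ := (three_sig γ i).1 h1 δ hδ
      exact ⟨j, hj, ((three_pos δ i j).1 h2).1⟩
    · intro h
      rw [three_root]
      refine ⟨?_, ?_⟩
      · rw [three_d]
        intro δ hδ
        exact (ih δ hδ).2 (gam_mono hδ.le h)
      · intro i hi
        rw [three_sig]
        intro δ hδ
        obtain ⟨j, hj, hl⟩ := h i hi δ hδ
        refine ⟨hi, j, hj, ?_⟩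
        rw [three_pos]
        exact ⟨hl, (ih δ hδ).2 (gam_mono hδ.le h)⟩

theorem sig_imp_d {γ : Ordinal.{0}} {i : I}
    (h : (three U I J val res leaf).AliveO γ (.sig i)) :
    (three U I J val res leaf).AliveO γ .d := by
  rw [three_d]
  intro δ hδ
  obtain ⟨-, j, hj, h2⟩ := (three_sig γ i).1 h δ hδ
  exact ((three_pos δ i j).1 h2).2

theorem sig_root {γ₁ : Ordinal.{0}} {i : I} (hi : val i)
    (h1 : (three U I J val res leaf).AliveO γ₁ .d)
    (h2 : ¬ (three U I J val res leaf).AliveO γ₁ (.sig i)) (γ : Ordinal.{0}) :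
    (three U I J val res leaf).AliveO γ (.sig i) ↔
      (three U I J val res leaf).AliveA γ .root := by
  constructor
  · intro h
    have hlt : γ < γ₁ := by
      by_contra hc
      exact h2 (aliveO_mono (not_lt.1 hc) h)
    exact (three_d γ₁).1 h1 γ hlt
  · intro h
    exact ((three_root γ).1 h).2 i hi

end Three

theorem t_three : StThree := by
  intro U I J val res leaf hU
  refine ⟨fun γ => three_gam γ, ?_⟩
  intro p
  cases p with
  | base p =>
    obtain ⟨σ, hσ⟩ := hU.ne p
    exact ⟨.base σ, hσ⟩
  | root => exact ⟨.d, trivial⟩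
  | pos i j => exact ⟨.d, trivial⟩

theorem half {U U' : Game} {I J I' J' : Type} {val : I → Prop} {res : I → J → Prop}
    {leaf : I → J → U.O → Prop} {val' : I' → Prop} {res' : I' → J' → Prop}
    {leaf' : I' → J' → U'.O → Prop} (hU : Good U) (hU' : Good U') (hs : SameRanks U U')
    (hg : ∀ γ, Gam U val res leaf γ ↔ Gam U' val' res' leaf' γ) :
    (∀ p : (three U I J val res leaf).A, ∃ p' : (three U' I' J' val' res' leaf').A,
      ∀ γ, (three U I J val res leaf).AliveA γ p ↔ (three U' I' J' val' res' leaf').AliveA γ p') ∧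
    (∀ p : (three U I J val res leaf).O, ∃ p' : (three U' I' J' val' res' leaf').O,
      ∀ γ, (three U I J val res leaf).AliveO γ p ↔
        (three U' I' J' val' res' leaf').AliveO γ p') := by
  have hroot : ∀ γ, (three U I J val res leaf).AliveA γ .root ↔
      (three U' I' J' val' res' leaf').AliveA γ .root := fun γ => by
    rw [three_gam, three_gam, hg]
  have hd : ∀ γ, (three U I J val res leaf).AliveO γ .d ↔
      (three U' I' J' val' res' leaf').AliveO γ .d := fun γ => by
    rw [three_d, three_d]
    exact forall₂_congr fun δ _ => hroot δ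
  constructor
  · intro p
    cases p with
    | base p =>
      obtain ⟨p', hp'⟩ := hs.A1 p
      exact ⟨.base p', fun γ => by rw [three_baseA, three_baseA, hp']⟩
    | root => exact ⟨.root, hroot⟩
    | pos i j =>
      by_cases hc : ∀ γ, (three U I J val res leaf).AliveA γ (.pos i j) ↔
          (three U I J val res leaf).AliveA γ .root
      · exact ⟨.root, fun γ => (hc γ).trans (hroot γ)⟩
      · push Not at hc
        obtain ⟨γ, hγ⟩ := hc
        have hγ' : ¬ (three U I J val res leaf).AliveA γ (.pos i j) ∧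
            (three U I J val res leaf).AliveA γ .root := by
          rcases hγ with h | h
          · exact absurd ((three_pos γ i j).1 h.1).2 h.2
          · exact h
        -- minimal failure
        obtain ⟨γ₀, hγ₀, hmin⟩ := WellFounded.has_min (wellFounded_lt (α := Ordinal.{0}))
          {γ | ¬ (three U I J val res leaf).AliveA γ (.pos i j)} ⟨γ, hγ'.1⟩
        have hle : γ₀ ≤ γ := not_lt.1 (hmin γ hγ'.1)
        have hr : (three U I J val res leaf).AliveA γ₀ .root := aliveA_mono hle hγ'.2
        have : ∃ ω, leaf i j ω ∧ ¬ U.AliveO γ₀ ω := by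
          by_contra hcon
          push Not at hcon
          exact hγ₀ ((three_pos γ₀ i j).2 ⟨hcon, hr⟩)
        obtain ⟨ω, hω, hω'⟩ := this
        obtain ⟨p, hp⟩ := hU.sing ω
        obtain ⟨p', hp'⟩ := hs.A1 p
        refine ⟨.base p', fun ε => ?_⟩
        rw [three_baseA, ← hp', hp]
        constructor
        · intro h
          exact ((three_pos ε i j).1 h).1 ω hω
        · intro h
          by_contra hc
          have : γ₀ ≤ ε := not_lt.1 (fun hlt => by
            exact hmin ε hc hlt)
          exact hω' (aliveO_mono this h)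
  · intro σ
    cases σ with
    | base σ =>
      obtain ⟨p', hp'⟩ := hs.O1 σ
      exact ⟨.base p', fun γ => by rw [three_baseO, three_baseO, hp']⟩
    | d => exact ⟨.d, hd⟩
    | sig i =>
      by_cases hi : val i
      · by_cases hc : ∀ γ, (three U I J val res leaf).AliveO γ (.sig i) ↔
          (three U I J val res leaf).AliveO γ .d
        · exact ⟨.d, fun γ => (hc γ).trans (hd γ)⟩
        · push Not at hc
          obtain ⟨γ₁, hγ₁⟩ := hc
          have hγ' : ¬ (three U I J val res leaf).AliveO γ₁ (.sig i) ∧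
              (three U I J val res leaf).AliveO γ₁ .d := by
            rcases hγ₁ with h | h
            · exact absurd (sig_imp_d h.1) h.2
            · exact h
          have hnr : ¬ (three U' I' J' val' res' leaf').AliveA γ₁ .root := by
            rw [← hroot]
            intro h
            exact hγ'.1 (((three_root γ₁).1 h).2 i hi)
          have hd' : (three U' I' J' val' res' leaf').AliveO γ₁ .d := (hd γ₁).1 hγ'.2
          have : ∃ i', val' i' ∧ ¬ (three U' I' J' val' res' leaf').AliveO γ₁ (.sig i') := by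
            by_contra hcon
            push Not at hcon
            exact hnr ((three_root γ₁).2 ⟨hd', hcon⟩)
          obtain ⟨i', hi', hn⟩ := this
          refine ⟨.sig i', fun γ => ?_⟩
          rw [sig_root hi hγ'.2 hγ'.1, sig_root hi' hd' hn, hroot]
      · obtain ⟨σ', hσ'⟩ := hU'.dead
        refine ⟨.base σ', fun γ => ?_⟩
        rw [three_baseO, three_sig, aliveO_iff]
        constructor
        · intro h δ hδ
          exact absurd (h δ hδ).1 hi
        · intro h δ hδ
          obtain ⟨q, hq, -⟩ := h δ hδ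
          exact absurd hq (hσ' q)

theorem t_threesame : StThreeSame := by
  intro U U' I J I' J' val res leaf val' res' leaf' hU hU' hs hg
  have h1 := half (U := U) (U' := U') hU hU' hs hg
  have h2 := half (U := U') (U' := U) hU' hU hs.symm (fun γ => (hg γ).symm)
  refine ⟨h1.1, ?_, h1.2, ?_⟩
  · intro p'
    obtain ⟨p, hp⟩ := h2.1 p'
    exact ⟨p, fun γ => (hp γ).symm⟩
  · intro p'
    obtain ⟨p, hp⟩ := h2.2 p'
    exact ⟨p, fun γ => (hp γ).symm⟩

end Pool.Agent.W919.CB
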