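import Pool.Agent.W919.CB.Sys

/-!
# Measurability of the transition relation
-/

namespace Pool.Agent.W919.CB
open Set

theorem m_code (p : ℕ × ℕ) : Measurable (fun L : LO => L.1 p = true) := by
  have h : Measurable (fun L : LO => L.1 p) := (measurable_pi_apply p).comp measurable_subtype_coe
  have := h (measurableSet_singleton true)
  exact measurableSet_setOfPred.1 this

theorem m_lt (a b : ℕ) : Measurable (fun L : LO => L.lt a b) :=
  (m_code _).and (m_code _).not

theorem m_mem (X : Iv) (p : ℕ) : Measurable (fun L : LO => L.mem X p) := by
  unfold LO.mem
  refine Measurable.and ?_ ?_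
  · refine Measurable.forall fun a => ?_
    exact Measurable.imp measurable_const (m_lt _ _)
  · refine Measurable.forall fun a => ?_
    exact Measurable.imp measurable_const (m_lt _ _)

theorem m_baseC (m : Bool) (p : BA) (σ : BO) : Measurable (fun L : LO => (base m L).C p σ) := by
  cases p <;> cases σ <;> simp only [base] <;>
    (repeat (first | exact measurable_const | exact m_lt _ _ | exact m_mem _ _ | exact m_code _ |
      apply Measurable.and | apply Measurable.or | (apply Measurable.exists; intro _)))

theorem m_baseR (m : Bool) (σ : BO) (p : BA) : Measurable (fun L : LO => (base m L).R σ p) := by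
  cases p <;> cases σ <;> simp only [base] <;>
    (repeat (first | exact measurable_const | exact m_lt _ _ | exact m_mem _ _ | exact m_code _ |
      apply Measurable.and | apply Measurable.or | (apply Measurable.exists; intro _)))

theorem m_vl (k : Kind) (i : Idx) : Measurable (fun L : LO => vl L k i) := by
  cases i <;> simp only [vl] <;>
    (repeat (first | exact measurable_const | exact m_lt _ _ | exact m_mem _ _ | exact m_code _ |
      apply Measurable.and | apply Measurable.or | (apply Measurable.exists; intro _)))

theorem m_rs (i : Idx) (j : Jdx) : Measurable (fun L : LO => rs L i j) := by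
  cases i <;> cases j <;> simp only [rs] <;>
    (repeat (first | exact measurable_const | exact m_lt _ _ | exact m_mem _ _ | exact m_code _ |
      apply Measurable.and | apply Measurable.or | (apply Measurable.exists; intro _)))

theorem m_lf (k : Kind) (i : Idx) (j : Jdx) (ω : BO) :
    Measurable (fun L : LO => lf L k i j ω) := by
  cases i <;> cases j <;> simp only [lf] <;> refine Measurable.or (m_baseC _ _ _) ?_ <;>
    (repeat (first | exact measurable_const | exact m_lt _ _ | exact m_mem _ _ | exact m_code _ |
      apply Measurable.and | apply Measurable.or | (apply Measurable.exists; intro _)))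

theorem m_gkC (k : Kind) (p : TA BA Idx Jdx) (σ : TO BO Idx) :
    Measurable (fun L : LO => (gk L k).C p σ) := by
  cases p <;> cases σ <;> simp only [gk, three] <;>
    first | exact measurable_const | exact m_baseC _ _ _ | exact m_vl _ _ | exact m_lf _ _ _ _

theorem m_gkR (k : Kind) (σ : TO BO Idx) (p : TA BA Idx Jdx) :
    Measurable (fun L : LO => (gk L k).R σ p) := by
  cases p <;> cases σ <;> simp only [gk, three] <;>
    first | exact measurable_const | exact m_baseR _ _ _ |
      exact measurable_const.and ((m_vl _ _).and (m_rs _ _))

theorem m_nch (k : Kind) (x y : NS (TA BA Idx Jdx) (TO BO Idx)) :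
    Measurable (fun L : LO => (gk L k).nch x y) := by
  cases x <;> cases y <;> simp only [Game.nch] <;>
    first | exact measurable_const | exact (m_gkC _ _ _).or (m_gkC _ _ _) |
      exact (m_gkR _ _ _).or (m_gkR _ _ _)

theorem m_ch (s t : St) : Measurable (fun L : LO => ch L s t) := by
  induction s generalizing t with
  | H x A B ih _ _ =>
    cases t <;> simp only [ch] <;>
    (repeat (first | exact measurable_const | exact m_lt _ _ | exact m_mem _ _ | exact m_code _ |
      apply Measurable.and | apply Measurable.or | (apply Measurable.exists; intro _)))
    exact ih _
  | K k x =>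
    cases t <;> simp only [ch] <;>
    (repeat (first | exact measurable_const | exact m_lt _ _ | exact m_mem _ _ | exact m_code _ |
      apply Measurable.and | apply Measurable.or | (apply Measurable.exists; intro _)))
    exact m_nch _ _ _
  | _ => cases t <;> simp only [ch] <;>
    (repeat (first | exact measurable_const | exact m_lt _ _ | exact m_mem _ _ | exact m_code _ |
      apply Measurable.and | apply Measurable.or | (apply Measurable.exists; intro _)))

theorem t_meas : StMeas := fun s t => measurableSet_setOfPred.2 (m_ch s t)

end Pool.Agent.W919.CB
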