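import Pool.Agent.W919.CB.Bas

/-!
# Assembly: convex bi-embeddability is reduced to bisimilarity
-/

namespace Pool.Agent.W919.CB
open Set

variable {L L' : LO}

/-! ## embeddings -/

theorem convEmb_iff : ConvEmb L L' ↔ ∃ f : Ty L → Ty L', CEmb (Ty L) (Ty L') f := by
  constructor
  · rintro ⟨f, hf, hc⟩
    refine ⟨f, ?_, ⟨?_⟩⟩
    · intro a b
      exact ⟨fun h => (hf a b).trans h, fun h => (hf a b).symm.trans h⟩
    · rintro x hx y hy z ⟨h1, h2⟩
      exact hc x z y hx hy h1 h2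
  · rintro ⟨f, hf, hc⟩
    refine ⟨f, ?_, ?_⟩
    · intro m n
      have h := hf m n
      change L'.1 (f m, f n) = true ↔ L.1 (m, n) = true at h
      exact Bool.eq_iff_iff.2 h.symm
    · intro a b c ha hb h1 h2
      exact hc.out ha hb ⟨h1, h2⟩

theorem isoLO_iff : IsoLO L L' ↔ Nonempty (Ty L ≃o Ty L') := by
  constructor
  · rintro ⟨f, hf⟩
    refine ⟨⟨f, ?_⟩⟩
    intro a b
    exact ⟨fun h => (hf a b).trans h, fun h => (hf a b).symm.trans h⟩
  · rintro ⟨f⟩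
    refine ⟨f.toEquiv, ?_⟩
    intro m n
    have h := f.map_rel_iff (a := m) (b := n)
    change L'.1 (f m, f n) = true ↔ L.1 (m, n) = true at h
    exact Bool.eq_iff_iff.2 h.symm

theorem CEmb.strictMono {α β : Type} [LinearOrder α] [LinearOrder β] {f : α → β}
    (hf : CEmb α β f) : StrictMono f := by
  intro a b hab
  rcases lt_or_ge (f a) (f b) with h | h
  · exact h
  · exact absurd ((hf.1 b a).1 h) (not_le.2 hab)

/-- an order embedding as an order isomorphism between a set and an image -/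
theorem isoS_image {α β : Type} [LinearOrder α] [LinearOrder β] {f : α → β}
    (hf : CEmb α β f) (S : Set α) (T : Set β) (h1 : ∀ a ∈ S, f a ∈ T)
    (h2 : ∀ b ∈ T, ∃ a ∈ S, f a = b) : IsoS S T := by
  have hinj := hf.strictMono.injective
  let g : S → T := fun a => ⟨f a, h1 a a.2⟩
  have hg : Function.Bijective g := by
    constructor
    · intro a b hab
      exact Subtype.ext (hinj (congrArg Subtype.val hab))
    · rintro ⟨b, hb⟩
      obtain ⟨a, ha, rfl⟩ := h2 b hb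
      exact ⟨⟨a, ha⟩, rfl⟩
  exact ⟨⟨Equiv.ofBijective g hg, by
    intro a b
    exact hf.1 a b⟩⟩

/-- a natural number as an element of `Ty L` -/
def up (L : LO) (a : ℕ) : Ty L := a

/-- an element of `Ty L` as a natural number -/
def dn (L : LO) (a : Ty L) : ℕ := a

theorem iv_some_some (a b : ℕ) : L.iv (some a, some b) = Ioo (up L a) (up L b) := by
  ext p
  constructor
  · rintro ⟨h1, h2⟩; exact ⟨h1 a rfl, h2 b rfl⟩
  · rintro ⟨h1, h2⟩
    exact ⟨by rintro _ ⟨⟩; exact h1, by rintro _ ⟨⟩; exact h2⟩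

theorem iv_some_none (a : ℕ) : L.iv (some a, none) = Ioi (up L a) := by
  ext p
  constructor
  · rintro ⟨h1, -⟩; exact h1 a rfl
  · intro h1
    exact ⟨by rintro _ ⟨⟩; exact h1, by rintro _ ⟨⟩⟩

theorem iv_none : L.iv (none, none) = univ := by
  ext p
  change (_ ∧ _) ↔ _
  simp

theorem sameB_of_cemb {f : Ty L → Ty L'} (hf : CEmb (Ty L) (Ty L') f) : SameB L L' := by
  intro a b
  refine ⟨dn L' (f (up L a)), dn L' (f (up L b)), ?_⟩
  rw [iv_some_some, iv_some_some]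
  change IsoS (Ioo (up L a) (up L b)) (Ioo (f (up L a)) (f (up L b)))
  apply isoS_image hf
  · rintro p ⟨h1, h2⟩
    exact ⟨hf.strictMono h1, hf.strictMono h2⟩
  · rintro q ⟨h1, h2⟩
    obtain ⟨p, rfl⟩ := hf.2.out ⟨a, rfl⟩ ⟨b, rfl⟩ ⟨h1.le, h2.le⟩
    exact ⟨p, ⟨hf.strictMono.lt_iff_lt.1 h1, hf.strictMono.lt_iff_lt.1 h2⟩, rfl⟩

theorem sameF_of_cemb {f : Ty L → Ty L'} (hf : CEmb (Ty L) (Ty L') f)
    (hu : IsUpperSet (range f)) : SameF L L' := by
  intro a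
  refine ⟨dn L' (f (up L a)), ?_⟩
  rw [iv_some_none, iv_some_none]
  change IsoS (Ioi (up L a)) (Ioi (f (up L a)))
  apply isoS_image hf
  · intro p h1
    exact hf.strictMono h1
  · intro q h1
    obtain ⟨p, rfl⟩ := hu (le_of_lt h1) ⟨a, rfl⟩
    exact ⟨p, hf.strictMono.lt_iff_lt.1 h1, rfl⟩

theorem sameB_refl : SameB L L := fun a b => ⟨a, b, ⟨OrderIso.refl _⟩⟩
theorem sameF_refl : SameF L L := fun a => ⟨a, ⟨OrderIso.refl _⟩⟩

/-- All statements of the subtasks that are used in the assembly. -/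
structure Hyps : Prop where
  efinv : StEFinv
  efiso : StEFiso
  T : StT
  starL : StStarL
  starD : StStarD
  cls : StClass
  gaminv : StGamInv
  gamSA : StGamSA
  gamstar : StGamStar
  gamrev : StGamRev
  three : StThree
  threesame : StThreeSame
  normB : StNormB
  normN : StNormN
  good : StBaseGood
  same : StBaseSame
  gamK : StGamK

/-- rank set of the game of kind `k` -/
def GK (L : LO) (k : Kind) (γ : Ordinal.{0}) : Prop :=
  Gam (base k.mode L) (vl L k) (rs L) (lf L k) γ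

variable (hy : Hyps)
include hy

theorem gk_alive (k : Kind) (γ : Ordinal.{0}) : (gk L k).AliveA γ .root ↔ GK L k γ :=
  (hy.three (base k.mode L) Idx Jdx (vl L k) (rs L) (lf L k) (hy.good _ _)).1 γ

theorem kroot_intro {k k' : Kind} (hm : k.mode = k'.mode) (h1 : SameB L L') (h2 : SameB L' L)
    (h3 : k.mode = true → SameF L L' ∧ SameF L' L) (h : ∀ γ, GK L k γ ↔ GK L' k' γ) :
    BS L L' (kroot k) (kroot k') := by
  apply bs_K_intro
  have hs : SameRanks (base k.mode L) (base k'.mode L') := by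
    rw [← hm]
    exact hy.same _ L L' h1 h2 h3
  have hs2 : SameRanks (gk L k) (gk L' k') :=
    hy.threesame _ _ _ _ _ _ _ _ _ _ _ _ (hy.good _ _) (hy.good _ _) hs h
  refine hy.normB (gk L k) (gk L' k')
    (hy.three (base k.mode L) Idx Jdx (vl L k) (rs L) (lf L k) (hy.good _ _)).2
    (hy.three (base k'.mode L') Idx Jdx (vl L' k') (rs L') (lf L' k') (hy.good _ _)).2 hs2
    TA.root TA.root TA.root TA.root ?_
  intro γ
  have e1 := gk_alive (L := L) hy k γ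
  have e2 := gk_alive (L := L') hy k' γ
  constructor
  · rintro ⟨a, -⟩
    have := e2.2 ((h γ).1 (e1.1 a))
    exact ⟨this, this⟩
  · rintro ⟨a, -⟩
    have := e1.2 ((h γ).2 (e2.1 a))
    exact ⟨this, this⟩

theorem kroot_elim {k k' : Kind} (h : BS L L' (kroot k) (kroot k')) (γ : Ordinal.{0}) :
    GK L k γ ↔ GK L' k' γ := by
  have h1 := hy.normN (gk L k) (gk L' k') TA.root TA.root TA.root TA.root (bs_K h) γ
  have e1 := gk_alive (L := L) hy k γ
  have e2 := gk_alive (L := L') hy k' γ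
  constructor
  · intro a
    exact e2.1 (h1.1 ⟨e1.2 a, e1.2 a⟩).1
  · intro a
    exact e1.1 (h1.2 ⟨e2.2 a, e2.2 a⟩).1

theorem gk_A (γ) : GK L .kA γ ↔ GamA (Ty L) γ := (hy.gamK L γ).1
theorem gk_E (γ) : GK L .kE γ := (hy.gamK L γ).2.1
theorem gk_1 (γ) : GK L .k1 γ ↔ GamA (Ty L) γ ∧ GamB (Ty L) γ ∧ GamD (Ty L) γ :=
  (hy.gamK L γ).2.2.1
theorem gk_2 (γ) : GK L .k2 γ ↔ GamA (Ty L) γ ∧ GamB (Ty L) γ := (hy.gamK L γ).2.2.2.1
theorem gk_L (γ) : GK L .kL γ ↔ GamL (Ty L) γ := (hy.gamK L γ).2.2.2.2.1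
theorem gk_F (γ) : GK L .kF γ := (hy.gamK L γ).2.2.2.2.2

theorem whole_iff : BS L L' whole whole ↔ Nonempty (Ty L ≃o Ty L') := by
  unfold whole
  rw [hy.T L L' 0 (none, none) (none, none), iv_none, iv_none]
  constructor
  · rintro ⟨e⟩
    exact ⟨OrderIso.Set.univ.symm.trans (e.trans OrderIso.Set.univ)⟩
  · rintro ⟨e⟩
    exact ⟨OrderIso.Set.univ.trans (e.trans OrderIso.Set.univ.symm)⟩

omit hy in
theorem ch_lam {z : St} : ch L .lam z ↔ z = .dot ∨ ∃ a b : ℕ, z = .T 0 (some a, some b) := by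
  cases z with
  | T s X =>
    obtain ⟨a, b⟩ := X
    cases a <;> cases b <;> simp [ch]
  | _ => simp [ch]

omit hy in
theorem ch_fl {z : St} : ch L .fl z ↔ z = .dot ∨ ∃ a : ℕ, z = .T 0 (some a, none) := by
  cases z with
  | T s X =>
    obtain ⟨a, b⟩ := X
    cases a <;> cases b <;> simp [ch]
  | _ => simp [ch]

theorem lam_iff : BS L L' .lam .lam ↔ SameB L L' ∧ SameB L' L := by
  constructor
  · intro h
    obtain ⟨-, h2, h3⟩ := bs_step h
    constructor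
    · intro a b
      obtain ⟨z, hz, hr⟩ := h2 _ (ch_lam.2 (Or.inr ⟨a, b, rfl⟩))
      rcases ch_lam.1 hz with rfl | ⟨a', b', rfl⟩
      · have := (bs_step hr).1; simp [lab] at this
      · exact ⟨a', b', (hy.T _ _ _ _ _).1 hr⟩
    · intro a b
      obtain ⟨z, hz, hr⟩ := h3 _ (ch_lam.2 (Or.inr ⟨a, b, rfl⟩))
      rcases ch_lam.1 hz with rfl | ⟨a', b', rfl⟩
      · have := (bs_step hr).1; simp [lab] at this
      · exact ⟨a', b', (hy.T _ _ _ _ _).1 (bs_symm hr)⟩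
  · rintro ⟨h1, h2⟩
    refine bs_up (fun a b => a = .lam ∧ b = .lam) ?_ ⟨rfl, rfl⟩
    rintro _ _ ⟨rfl, rfl⟩
    refine ⟨rfl, ?_, ?_⟩
    · intro z hz
      rcases ch_lam.1 hz with rfl | ⟨a, b, rfl⟩
      · exact ⟨.dot, ch_dot _, Or.inr bs_dot⟩
      · obtain ⟨a', b', h⟩ := h1 a b
        exact ⟨_, ch_lam.2 (Or.inr ⟨a', b', rfl⟩), Or.inr ((hy.T _ _ _ _ _).2 h)⟩
    · intro z hz
      rcases ch_lam.1 hz with rfl | ⟨a, b, rfl⟩
      · exact ⟨.dot, ch_dot _, Or.inr bs_dot⟩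
      · obtain ⟨a', b', h⟩ := h2 a b
        exact ⟨_, ch_lam.2 (Or.inr ⟨a', b', rfl⟩), Or.inr (bs_symm ((hy.T _ _ _ _ _).2 h))⟩

theorem fl_iff : BS L L' .fl .fl ↔ SameF L L' ∧ SameF L' L := by
  constructor
  · intro h
    obtain ⟨-, h2, h3⟩ := bs_step h
    constructor
    · intro a
      obtain ⟨z, hz, hr⟩ := h2 _ (ch_fl.2 (Or.inr ⟨a, rfl⟩))
      rcases ch_fl.1 hz with rfl | ⟨a', rfl⟩
      · have := (bs_step hr).1; simp [lab] at this
      · exact ⟨a', (hy.T _ _ _ _ _).1 hr⟩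
    · intro a
      obtain ⟨z, hz, hr⟩ := h3 _ (ch_fl.2 (Or.inr ⟨a, rfl⟩))
      rcases ch_fl.1 hz with rfl | ⟨a', rfl⟩
      · have := (bs_step hr).1; simp [lab] at this
      · exact ⟨a', (hy.T _ _ _ _ _).1 (bs_symm hr)⟩
  · rintro ⟨h1, h2⟩
    refine bs_up (fun a b => a = .fl ∧ b = .fl) ?_ ⟨rfl, rfl⟩
    rintro _ _ ⟨rfl, rfl⟩
    refine ⟨rfl, ?_, ?_⟩
    · intro z hz
      rcases ch_fl.1 hz with rfl | ⟨a, rfl⟩
      · exact ⟨.dot, ch_dot _, Or.inr bs_dot⟩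
      · obtain ⟨a', h⟩ := h1 a
        exact ⟨_, ch_fl.2 (Or.inr ⟨a', rfl⟩), Or.inr ((hy.T _ _ _ _ _).2 h)⟩
    · intro z hz
      rcases ch_fl.1 hz with rfl | ⟨a, rfl⟩
      · exact ⟨.dot, ch_dot _, Or.inr bs_dot⟩
      · obtain ⟨a', h⟩ := h2 a
        exact ⟨_, ch_fl.2 (Or.inr ⟨a', rfl⟩), Or.inr (bs_symm ((hy.T _ _ _ _ _).2 h))⟩

omit hy in
theorem bs_hd_intro {x y A B A' B' : St} (h1 : BS L L' A A') (h2 : BS L L' B B')
    (h3 : BS L L' (.H x A B) (.H y A' B')) : BS L L' (hd x A B) (hd y A' B') :=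
  bs_pr_intro h1 (bs_pr_intro h2 h3)

omit hy in
theorem bs_hd {x y A B A' B' : St} (hA : lab A ≠ 0) (hB : lab B ≠ 0)
    (h : BS L L' (hd x A B) (hd y A' B')) :
    BS L L' A A' ∧ BS L L' B B' ∧ BS L L' (.H x A B) (.H y A' B') := by
  obtain ⟨h1, h2⟩ := bs_pr hA (by simp [lab]) h
  obtain ⟨h3, h4⟩ := bs_pr hB (by simp [lab]) h2
  exact ⟨h1, h3, h4⟩

omit hy in
theorem lab_kroot (k : Kind) : lab (kroot k) ≠ 0 := by
  change 2 + _ ≠ 0
  omega

/-- T1 -/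
theorem T1 (f : Ty L → Ty L') (g : Ty L' → Ty L) (hf : CEmb (Ty L) (Ty L') f)
    (hg : CEmb (Ty L') (Ty L) g) : BS L L' topSt topSt := by
  have B1 := sameB_of_cemb hf
  have B2 := sameB_of_cemb hg
  have cls := hy.cls (Ty L) (Ty L') f g hf hg
  have cls' := hy.cls (Ty L') (Ty L) g f hg hf
  have ga : ∀ γ, GamA (Ty L) γ ↔ GamA (Ty L') γ := fun γ =>
    ⟨(hy.gaminv _ _ f g γ hf hg).1, (hy.gaminv _ _ g f γ hg hf).1⟩
  have gb : ∀ γ, GamB (Ty L) γ ↔ GamB (Ty L') γ := fun γ =>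
    ⟨(hy.gaminv _ _ f g γ hf hg).2.1, (hy.gaminv _ _ g f γ hg hf).2.1⟩
  have gd : ∀ γ, GamD (Ty L) γ ↔ GamD (Ty L') γ := fun γ =>
    ⟨(hy.gaminv _ _ f g γ hf hg).2.2.1, (hy.gaminv _ _ g f γ hg hf).2.2.1⟩
  have fin : ∀ {M M' : LO} (k k' : Kind), k.mode = false → k'.mode = false → SameB M M' →
      SameB M' M → (∀ γ, GK M k γ ↔ GK M' k' γ) → BS M M' (kroot k) (kroot k') := by
    intro M M' k k' h1 h2 h3 h4 h5
    exact kroot_intro hy (h1.trans h2.symm) h3 h4 (fun h => by rw [h1] at h; cases h) h5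
  have kA : BS L L' (kroot .kA) (kroot .kA) := fin _ _ rfl rfl B1 B2 (fun γ => by
    rw [gk_A hy, gk_A hy, ga])
  have kE : BS L L' (kroot .kE) (kroot .kE) := fin _ _ rfl rfl B1 B2 (fun γ =>
    ⟨fun _ => gk_E hy γ, fun _ => gk_E hy γ⟩)
  have k1 : BS L L' (kroot .k1) (kroot .k1) := fin _ _ rfl rfl B1 B2 (fun γ => by
    rw [gk_1 hy, gk_1 hy, ga, gb, gd])
  have k2 : BS L L' (kroot .k2) (kroot .k2) := fin _ _ rfl rfl B1 B2 (fun γ => by
    rw [gk_2 hy, gk_2 hy, ga, gb])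
  -- the outer pair
  have hZ : BS L L' (hd whole (kroot .k1) (kroot .k2)) (hd whole (kroot .k1) (kroot .k2)) := by
    apply bs_hd_intro k1 k2
    by_cases hSA : LeftSA (Ty L) ∨ RightSA (Ty L)
    · have key : ∀ (M : LO), (LeftSA (Ty M) ∨ RightSA (Ty M)) →
          BS M M (kroot .k1) (kroot .k2) := by
        intro M hM
        refine fin _ _ rfl rfl sameB_refl sameB_refl (fun γ => ?_)
        rw [gk_1 hy, gk_2 hy]
        constructor
        · rintro ⟨a, b, -⟩; exact ⟨a, b⟩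
        · rintro ⟨a, b⟩
          refine ⟨a, b, ?_⟩
          rcases hM with h | h
          · exact (hy.gamSA (Ty M) γ).2.2.1 h a
          · exact (hy.gamSA (Ty M) γ).2.2.2 h b
      refine bs_H_hidden k1 (key L hSA) (key L' ?_) _ _
      rcases hSA with h | h
      · exact Or.inl (cls.2.2.1 h)
      · exact Or.inr (cls.2.2.2 h)
    · push Not at hSA
      exact bs_H_intro k1 k2 ((whole_iff hy).2 (cls.1 hSA.1 hSA.2))
  -- the inner part
  have hY : BS L L' (hd Yst (kroot .kA) (kroot .kE)) (hd Yst (kroot .kA) (kroot .kE)) := by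
    apply bs_hd_intro kA kE
    by_cases hR : RightSA (Ty L)
    · have key : ∀ (M : LO), RightSA (Ty M) → BS M M (kroot .kA) (kroot .kE) := by
        intro M hM
        refine fin _ _ rfl rfl sameB_refl sameB_refl (fun γ => ?_)
        rw [gk_A hy]
        exact ⟨fun _ => gk_E hy γ, fun _ => (hy.gamSA (Ty M) γ).1 hM⟩
      exact bs_H_hidden kA (key L hR) (key L' (cls.2.2.2 hR)) _ _
    · obtain ⟨u1, u2⟩ := cls.2.1 hR
      have F1 := sameF_of_cemb hf u1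
      have F2 := sameF_of_cemb hg u2
      have gl : ∀ γ, GamL (Ty L) γ ↔ GamL (Ty L') γ := fun γ =>
        ⟨(hy.gaminv _ _ f g γ hf hg).2.2.2 u1 u2, (hy.gaminv _ _ g f γ hg hf).2.2.2 u2 u1⟩
      have kL : BS L L' (kroot .kL) (kroot .kL) :=
        kroot_intro hy rfl B1 B2 (fun _ => ⟨F1, F2⟩) (fun γ => by rw [gk_L hy, gk_L hy, gl])
      have kF : BS L L' (kroot .kF) (kroot .kF) :=
        kroot_intro hy rfl B1 B2 (fun _ => ⟨F1, F2⟩)
          (fun γ => ⟨fun _ => gk_F hy γ, fun _ => gk_F hy γ⟩)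
      apply bs_H_intro kA kE
      apply bs_pr_intro ((fl_iff hy).2 ⟨F1, F2⟩)
      apply bs_hd_intro kL kF
      by_cases hL : LeftSA (Ty L)
      · have key : ∀ (M : LO), LeftSA (Ty M) → BS M M (kroot .kL) (kroot .kF) := by
          intro M hM
          refine kroot_intro hy rfl sameB_refl sameB_refl
            (fun _ => ⟨sameF_refl, sameF_refl⟩) (fun γ => ?_)
          rw [gk_L hy]
          exact ⟨fun _ => gk_F hy γ, fun _ => (hy.gamSA (Ty M) γ).2.1 hM⟩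
        exact bs_H_hidden kL (key L hL) (key L' (cls.2.2.1 hL)) _ _
      · exact bs_H_intro kL kF ((whole_iff hy).2 (cls.1 hL hR))
  exact bs_pr_intro ((lam_iff hy).2 ⟨B1, B2⟩) (bs_pr_intro hY hZ)

omit hy in
/-- an order isomorphism gives a convex embedding -/
theorem cemb_of_iso (e : Ty L ≃o Ty L') : ConvEmb L L' ∧ ConvEmb L' L := by
  constructor
  · refine convEmb_iff.2 ⟨e, fun a b => e.le_iff_le, ?_⟩
    rw [e.surjective.range_eq]; exact ordConnected_univ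
  · refine convEmb_iff.2 ⟨e.symm, fun a b => e.symm.le_iff_le, ?_⟩
    rw [e.symm.surjective.range_eq]; exact ordConnected_univ

omit hy in
/-- from an iso onto a convex subset of an interval which is isomorphic to an interval of the
other order -/
theorem convEmb_of_sub {T : Set (Ty L)} {S : Set (Ty L)} {S' : Set (Ty L')} (hT : T.OrdConnected)
    (hTS : T ⊆ S) (hS' : S'.OrdConnected) (e : Nonempty (Ty L ≃o T)) (e' : IsoS S S') :
    ConvEmb L L' := by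
  obtain ⟨e⟩ := e
  obtain ⟨e'⟩ := e'
  refine convEmb_iff.2 ⟨fun a => (e' ⟨e a, hTS (e a).2⟩ : S'), ?_, ⟨?_⟩⟩
  · intro a b
    have h1 : (e' ⟨e a, hTS (e a).2⟩ : S') ≤ e' ⟨e b, hTS (e b).2⟩ ↔ a ≤ b := by
      rw [e'.le_iff_le]
      exact e.le_iff_le
    exact h1
  · rintro _ ⟨a, rfl⟩ _ ⟨b, rfl⟩ z ⟨h1, h2⟩
    have hz : z ∈ S' := hS'.out (e' ⟨e a, hTS (e a).2⟩).2 (e' ⟨e b, hTS (e b).2⟩).2 ⟨h1, h2⟩
    obtain ⟨⟨y, hy⟩, hyz⟩ := e'.surjective ⟨z, hz⟩
    have hyT : y ∈ T := by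
      refine hT.out (e a).2 (e b).2 ⟨?_, ?_⟩
      · have : e' ⟨e a, hTS (e a).2⟩ ≤ e' ⟨y, hy⟩ := by rw [hyz]; exact h1
        exact e'.le_iff_le.1 this
      · have : e' ⟨y, hy⟩ ≤ e' ⟨e b, hTS (e b).2⟩ := by rw [hyz]; exact h2
        exact e'.le_iff_le.1 this
    obtain ⟨c, hc⟩ := e.surjective ⟨y, hyT⟩
    refine ⟨c, ?_⟩
    have : (⟨e c, hTS (e c).2⟩ : S) = ⟨y, hy⟩ := Subtype.ext (by rw [hc])
    change ((e' ⟨e c, hTS (e c).2⟩ : S') : Ty L') = z
    rw [this, hyz]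

omit hy in
theorem leftSA_of {M M' : LO} (hL : LeftSA (Ty M)) (hF : SameF M M') : ConvEmb M M' := by
  obtain ⟨x, T, hT, hu, e⟩ := hL
  obtain ⟨a', h⟩ := hF (dn M x)
  rw [iv_some_none, iv_some_none] at h
  exact convEmb_of_sub (S := Ioi x) hu.ordConnected hT ordConnected_Ioi e h

omit hy in
theorem bddSA_of {M M' : LO} (hL : BddSA (Ty M)) (hF : SameB M M') : ConvEmb M M' := by
  obtain ⟨x, y, T, hT, hu, e⟩ := hL
  obtain ⟨a', b', h⟩ := hF (dn M x) (dn M y)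
  rw [iv_some_some, iv_some_some] at h
  exact convEmb_of_sub (S := Ioo x y) hu hT ordConnected_Ioo e h

/-- T2, one side: if `GamA` fails -/
theorem T2a (h : BS L L' topSt topSt) (hA : ∃ γ, ¬ GamA (Ty L) γ) :
    BiEmb L L' := by
  obtain ⟨h1, h2⟩ := bs_pr (by simp [lab]) (by simp [lab]) h
  obtain ⟨h3, h4⟩ := bs_pr (by simp [lab, hd]) (by simp [lab, hd]) h2
  obtain ⟨kA, kE, hH⟩ := bs_hd (lab_kroot _) (lab_kroot _) h3
  have hne : ¬ BS L L (kroot .kA) (kroot .kE) := by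
    intro hb
    obtain ⟨γ, hγ⟩ := hA
    exact hγ ((gk_A hy γ).1 ((kroot_elim hy hb γ).2 (gk_E hy γ)))
  have hY : BS L L' Yst Yst := bs_H_reveal (lab_kroot _) kE hne hH
  obtain ⟨hfl, h5⟩ := bs_pr (by simp [lab]) (by simp [lab, hd]) hY
  obtain ⟨F1, F2⟩ := (fl_iff hy).1 hfl
  obtain ⟨kL, kF, hH2⟩ := bs_hd (lab_kroot _) (lab_kroot _) h5
  by_cases hall : ∀ γ, GamL (Ty L) γ
  · have hall' : ∀ γ, GamL (Ty L') γ := fun γ =>
      (gk_L hy γ).1 ((kroot_elim hy kL γ).1 ((gk_L hy γ).2 (hall γ)))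
    have s1 := hy.starL (Ty L) ((hy.gamstar (Ty L)).2 hall)
    have s2 := hy.starL (Ty L') ((hy.gamstar (Ty L')).2 hall')
    exact ⟨leftSA_of s1 F1, leftSA_of s2 F2⟩
  · have hne2 : ¬ BS L L (kroot .kL) (kroot .kF) := by
      intro hb
      apply hall
      intro γ
      exact (gk_L hy γ).1 ((kroot_elim hy hb γ).2 (gk_F hy γ))
    have hW : BS L L' whole whole := bs_H_reveal (lab_kroot _) kF hne2 hH2
    obtain ⟨e⟩ := (whole_iff hy).1 hW
    exact cemb_of_iso e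

omit hy in
theorem biEmb_rev (h : BiEmb L.rev L'.rev) : BiEmb L L' := by
  have key : ∀ {M M' : LO}, ConvEmb M.rev M'.rev → ConvEmb M M' := by
    rintro M M' ⟨f, hf, hc⟩
    refine ⟨f, fun m n => hf n m, ?_⟩
    intro a b c ha hb h1 h2
    exact hc c b a hb ha h2 h1
  exact ⟨key h.1, key h.2⟩

/-- T2 -/
theorem T2 (h : BS L L' topSt topSt) (hr : BS L.rev L'.rev topSt topSt) : BiEmb L L' := by
  by_cases hA : ∀ γ, GamA (Ty L) γ
  swap
  · push Not at hA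
    exact T2a hy h hA
  by_cases hB : ∀ γ, GamB (Ty L) γ
  swap
  · push Not at hB
    apply biEmb_rev
    apply T2a hy hr
    obtain ⟨γ, hγ⟩ := hB
    exact ⟨γ, fun h => hγ ((hy.gamrev L γ).1 h)⟩
  obtain ⟨hlam, h2⟩ := bs_pr (by simp [lab]) (by simp [lab]) h
  obtain ⟨B1, B2⟩ := (lam_iff hy).1 hlam
  obtain ⟨h3, h4⟩ := bs_pr (by simp [lab, hd]) (by simp [lab, hd]) h2
  obtain ⟨k1, k2, hH⟩ := bs_hd (lab_kroot _) (lab_kroot _) h4
  by_cases hD : ∀ γ, GamD (Ty L) γ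
  · have hD' : ∀ γ, GamD (Ty L') γ := fun γ =>
      ((gk_1 hy γ).1 ((kroot_elim hy k1 γ).1 ((gk_1 hy γ).2 ⟨hA γ, hB γ, hD γ⟩))).2.2
    have s1 := hy.starD (Ty L) ((hy.gamstar (Ty L)).1 hD)
    have s2 := hy.starD (Ty L') ((hy.gamstar (Ty L')).1 hD')
    exact ⟨bddSA_of s1 B1, bddSA_of s2 B2⟩
  · have hne : ¬ BS L L (kroot .k1) (kroot .k2) := by
      intro hb
      apply hD
      intro γ
      exact ((gk_1 hy γ).1 ((kroot_elim hy hb γ).2 ((gk_2 hy γ).2 ⟨hA γ, hB γ⟩))).2.2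
    have hW : BS L L' whole whole := bs_H_reveal (lab_kroot _) k2 hne hH
    obtain ⟨e⟩ := (whole_iff hy).1 hW
    exact cemb_of_iso e

theorem main_bis : BiEmb L L' ↔ BS L L' topSt topSt ∧ BS L.rev L'.rev topSt topSt := by
  constructor
  · rintro ⟨h1, h2⟩
    have key : ∀ {M M' : LO}, ConvEmb M M' → ConvEmb M.rev M'.rev := by
      rintro M M' ⟨f, hf, hc⟩
      refine ⟨f, fun m n => hf n m, ?_⟩
      intro a b c ha hb h1 h2
      exact hc c b a hb ha h2 h1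
    obtain ⟨f, hf⟩ := convEmb_iff.1 h1
    obtain ⟨g, hg⟩ := convEmb_iff.1 h2
    obtain ⟨f', hf'⟩ := convEmb_iff.1 (key h1)
    obtain ⟨g', hg'⟩ := convEmb_iff.1 (key h2)
    exact ⟨T1 hy f g hf hg, T1 hy f' g' hf' hg'⟩
  · rintro ⟨h1, h2⟩
    exact T2 hy h1 h2

end Pool.Agent.W919.CB
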