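import Pool.Agent.W919.CB.Sys

/-!
# Bisimilarity calculus for the system of a code
-/

namespace Pool.Agent.W919.CB
open Set

variable {L L' L'' : LO}

theorem bs_step {x y : St} (h : BS L L' x y) :
    lab x = lab y ∧ (∀ x', ch L x x' → ∃ y', ch L' y y' ∧ BS L L' x' y') ∧
      (∀ y', ch L' y y' → ∃ x', ch L x x' ∧ BS L L' x' y') := by
  obtain ⟨R, hR, hxy⟩ := h
  obtain ⟨h1, h2, h3⟩ := hR x y hxy
  refine ⟨h1, ?_, ?_⟩
  · intro x' hx'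
    obtain ⟨y', hy', hr⟩ := h2 x' hx'
    exact ⟨y', hy', R, hR, hr⟩
  · intro y' hy'
    obtain ⟨x', hx', hr⟩ := h3 y' hy'
    exact ⟨x', hx', R, hR, hr⟩

/-- bisimulation up to bisimilarity (union) -/
theorem bs_up (R : St → St → Prop)
    (hR : ∀ a b, R a b → lab a = lab b ∧
      (∀ a', ch L a a' → ∃ b', ch L' b b' ∧ (R a' b' ∨ BS L L' a' b')) ∧
      (∀ b', ch L' b b' → ∃ a', ch L a a' ∧ (R a' b' ∨ BS L L' a' b')))
    {x y : St} (h : R x y) : BS L L' x y := by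
  refine ⟨fun a b => R a b ∨ BS L L' a b, ?_, Or.inl h⟩
  rintro a b (hab | hab)
  · exact hR a b hab
  · obtain ⟨h1, h2, h3⟩ := bs_step hab
    refine ⟨h1, ?_, ?_⟩
    · intro a' ha'
      obtain ⟨b', hb', hr⟩ := h2 a' ha'
      exact ⟨b', hb', Or.inr hr⟩
    · intro b' hb'
      obtain ⟨a', ha', hr⟩ := h3 b' hb'
      exact ⟨a', ha', Or.inr hr⟩

theorem bs_symm {x y : St} (h : BS L L' x y) : BS L' L y x := by
  obtain ⟨R, hR, hxy⟩ := h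
  refine ⟨fun a b => R b a, ?_, hxy⟩
  intro a b hab
  obtain ⟨h1, h2, h3⟩ := hR b a hab
  exact ⟨h1.symm, h3, h2⟩

theorem bs_trans {x y z : St} (h : BS L L' x y) (h' : BS L' L'' y z) : BS L L'' x z := by
  obtain ⟨R, hR, hxy⟩ := h
  obtain ⟨R', hR', hyz⟩ := h'
  refine ⟨fun a c => ∃ b, R a b ∧ R' b c, ?_, y, hxy, hyz⟩
  rintro a c ⟨b, hab, hbc⟩
  obtain ⟨h1, h2, h3⟩ := hR a b hab
  obtain ⟨h1', h2', h3'⟩ := hR' b c hbc
  refine ⟨h1.trans h1', ?_, ?_⟩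
  · intro a' ha'
    obtain ⟨b', hb', hr⟩ := h2 a' ha'
    obtain ⟨c', hc', hr'⟩ := h2' b' hb'
    exact ⟨c', hc', b', hr, hr'⟩
  · intro c' hc'
    obtain ⟨b', hb', hr⟩ := h3' c' hc'
    obtain ⟨a', ha', hr'⟩ := h3 b' hb'
    exact ⟨a', ha', b', hr', hr⟩

theorem bs_refl (x : St) : BS L L x x := by
  refine ⟨fun a b => a = b, ?_, rfl⟩
  rintro a b rfl
  exact ⟨rfl, fun a' h => ⟨a', h, rfl⟩, fun a' h => ⟨a', h, rfl⟩⟩

theorem ch_dot (x : St) : ch L x .dot := by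
  cases x <;> simp [ch]

theorem ch_of_dot {x : St} (h : ch L .dot x) : x = .dot := by
  cases x <;> simp_all [ch]

theorem lab_dot_iff {x : St} : lab x = 0 ↔ x = .dot := by
  cases x <;> simp [lab]

theorem bs_dot : BS L L' .dot .dot := by
  refine ⟨fun a b => a = .dot ∧ b = .dot, ?_, rfl, rfl⟩
  rintro a b ⟨rfl, rfl⟩
  refine ⟨rfl, ?_, ?_⟩
  · intro a' h
    exact ⟨.dot, ch_dot _, ch_of_dot h, rfl⟩
  · intro a' h
    exact ⟨.dot, ch_dot _, rfl, ch_of_dot h⟩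

/-- children of `M j x` -/
theorem ch_M {j : ℕ} {x y : St} : ch L (.M j x) y ↔ y = .dot ∨ y = x := by
  cases y <;> simp [ch]

theorem bs_M_intro {j : ℕ} {x y : St} (h : BS L L' x y) : BS L L' (.M j x) (.M j y) := by
  refine bs_up (fun a b => a = .M j x ∧ b = .M j y) ?_ ⟨rfl, rfl⟩
  rintro a b ⟨rfl, rfl⟩
  refine ⟨rfl, ?_, ?_⟩
  · intro a' ha
    rcases ch_M.1 ha with rfl | rfl
    · exact ⟨.dot, ch_dot _, Or.inr bs_dot⟩
    · exact ⟨y, ch_M.2 (Or.inr rfl), Or.inr h⟩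
  · intro a' ha
    rcases ch_M.1 ha with rfl | rfl
    · exact ⟨.dot, ch_dot _, Or.inr bs_dot⟩
    · exact ⟨x, ch_M.2 (Or.inr rfl), Or.inr h⟩

theorem bs_M {j j' : ℕ} {x y : St} (hx : lab x ≠ 0) (h : BS L L' (.M j x) (.M j' y)) :
    j = j' ∧ BS L L' x y := by
  obtain ⟨h1, h2, h3⟩ := bs_step h
  have hj : j = j' := by simp [lab] at h1; exact h1
  obtain ⟨y', hy', hr⟩ := h2 x (ch_M.2 (Or.inr rfl))
  rcases ch_M.1 hy' with rfl | rfl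
  · exact absurd ((bs_step hr).1.trans rfl) hx
  · exact ⟨hj, hr⟩

/-- children of `pr x y` -/
theorem ch_pr {x y z : St} : ch L (.pr x y) z ↔ z = .dot ∨ z = .M 0 x ∨ z = .M 1 y := by
  cases z with
  | M j z =>
    simp only [ch]
    constructor
    · rintro (⟨rfl, rfl⟩ | ⟨rfl, rfl⟩) <;> simp
    · rintro (h | h | h)
      · cases h
      · cases h; simp
      · cases h; simp
  | _ => simp [ch]

theorem bs_pr_intro {x y x' y' : St} (h : BS L L' x x') (h' : BS L L' y y') :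
    BS L L' (.pr x y) (.pr x' y') := by
  refine bs_up (fun a b => a = .pr x y ∧ b = .pr x' y') ?_ ⟨rfl, rfl⟩
  rintro a b ⟨rfl, rfl⟩
  refine ⟨rfl, ?_, ?_⟩
  · intro a' ha
    rcases ch_pr.1 ha with rfl | rfl | rfl
    · exact ⟨.dot, ch_dot _, Or.inr bs_dot⟩
    · exact ⟨_, ch_pr.2 (Or.inr (Or.inl rfl)), Or.inr (bs_M_intro h)⟩
    · exact ⟨_, ch_pr.2 (Or.inr (Or.inr rfl)), Or.inr (bs_M_intro h')⟩
  · intro a' ha
    rcases ch_pr.1 ha with rfl | rfl | rfl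
    · exact ⟨.dot, ch_dot _, Or.inr bs_dot⟩
    · exact ⟨_, ch_pr.2 (Or.inr (Or.inl rfl)), Or.inr (bs_M_intro h)⟩
    · exact ⟨_, ch_pr.2 (Or.inr (Or.inr rfl)), Or.inr (bs_M_intro h')⟩

theorem bs_pr {x y x' y' : St} (hx : lab x ≠ 0) (hy : lab y ≠ 0)
    (h : BS L L' (.pr x y) (.pr x' y')) : BS L L' x x' ∧ BS L L' y y' := by
  obtain ⟨h1, h2, h3⟩ := bs_step h
  constructor
  · obtain ⟨z, hz, hr⟩ := h2 _ (ch_pr.2 (Or.inr (Or.inl rfl)))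
    rcases ch_pr.1 hz with rfl | rfl | rfl
    · have := (bs_step hr).1; simp [lab] at this
    · exact (bs_M hx hr).2
    · have := (bs_M hx hr).1; omega
  · obtain ⟨z, hz, hr⟩ := h2 _ (ch_pr.2 (Or.inr (Or.inr rfl)))
    rcases ch_pr.1 hz with rfl | rfl | rfl
    · have := (bs_step hr).1; simp [lab] at this
    · have := (bs_M hy hr).1; omega
    · exact (bs_M hy hr).2

/-- children of `H x A B` -/
theorem ch_H {x A B z : St} : ch L (.H x A B) z ↔ z = .dot ∨ (∃ y, ch L x y ∧ z = .H y A B) ∨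
    (∃ j, lab x = j ∧ z = .M j A) ∨ (∃ j, lab x ≠ j ∧ z = .M j B) := by
  cases z with
  | M j z =>
    simp only [ch]
    constructor
    · rintro (⟨h, rfl⟩ | ⟨h, rfl⟩)
      · exact Or.inr (Or.inr (Or.inl ⟨j, h, rfl⟩))
      · exact Or.inr (Or.inr (Or.inr ⟨j, h, rfl⟩))
    · rintro (h | ⟨y, -, h⟩ | ⟨j', h', h⟩ | ⟨j', h', h⟩)
      · cases h
      · cases h
      · cases h; exact Or.inl ⟨h', rfl⟩
      · cases h; exact Or.inr ⟨h', rfl⟩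
  | H y A' B' =>
    simp only [ch]
    constructor
    · rintro ⟨rfl, rfl, h⟩
      exact Or.inr (Or.inl ⟨y, h, rfl⟩)
    · rintro (h | ⟨y', h', h⟩ | ⟨j', h', h⟩ | ⟨j', h', h⟩)
      · cases h
      · cases h; exact ⟨rfl, rfl, h'⟩
      · cases h
      · cases h
  | _ => simp [ch]

/-- hidden states are all bisimilar -/
theorem bs_H_hidden {A B A' B' : St} (hA : BS L L' A A') (hAB : BS L L A B)
    (hAB' : BS L' L' A' B') (x y : St) : BS L L' (.H x A B) (.H y A' B') := by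
  have hAB1 : BS L L' A B' := bs_trans hA hAB'
  have hBA : BS L L' B A' := bs_trans (bs_symm hAB) hA
  have hBB : BS L L' B B' := bs_trans hBA hAB'
  refine bs_up (fun a b => ∃ x y, a = .H x A B ∧ b = .H y A' B') ?_ ⟨x, y, rfl, rfl⟩
  rintro a b ⟨x, y, rfl, rfl⟩
  refine ⟨rfl, ?_, ?_⟩
  · intro a' ha
    rcases ch_H.1 ha with rfl | ⟨x', hx', rfl⟩ | ⟨j, hj, rfl⟩ | ⟨j, hj, rfl⟩
    · exact ⟨.dot, ch_dot _, Or.inr bs_dot⟩
    · exact ⟨.H .dot A' B', ch_H.2 (Or.inr (Or.inl ⟨_, ch_dot _, rfl⟩)),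
        Or.inl ⟨_, _, rfl, rfl⟩⟩
    · by_cases h : lab y = j
      · exact ⟨_, ch_H.2 (Or.inr (Or.inr (Or.inl ⟨j, h, rfl⟩))), Or.inr (bs_M_intro hA)⟩
      · exact ⟨_, ch_H.2 (Or.inr (Or.inr (Or.inr ⟨j, h, rfl⟩))), Or.inr (bs_M_intro hAB1)⟩
    · by_cases h : lab y = j
      · exact ⟨_, ch_H.2 (Or.inr (Or.inr (Or.inl ⟨j, h, rfl⟩))), Or.inr (bs_M_intro hBA)⟩
      · exact ⟨_, ch_H.2 (Or.inr (Or.inr (Or.inr ⟨j, h, rfl⟩))), Or.inr (bs_M_intro hBB)⟩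
  · intro a' ha
    rcases ch_H.1 ha with rfl | ⟨x', hx', rfl⟩ | ⟨j, hj, rfl⟩ | ⟨j, hj, rfl⟩
    · exact ⟨.dot, ch_dot _, Or.inr bs_dot⟩
    · exact ⟨.H .dot A B, ch_H.2 (Or.inr (Or.inl ⟨_, ch_dot _, rfl⟩)),
        Or.inl ⟨_, _, rfl, rfl⟩⟩
    · by_cases h : lab x = j
      · exact ⟨_, ch_H.2 (Or.inr (Or.inr (Or.inl ⟨j, h, rfl⟩))), Or.inr (bs_M_intro hA)⟩
      · exact ⟨_, ch_H.2 (Or.inr (Or.inr (Or.inr ⟨j, h, rfl⟩))), Or.inr (bs_M_intro hBA)⟩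
    · by_cases h : lab x = j
      · exact ⟨_, ch_H.2 (Or.inr (Or.inr (Or.inl ⟨j, h, rfl⟩))), Or.inr (bs_M_intro hAB1)⟩
      · exact ⟨_, ch_H.2 (Or.inr (Or.inr (Or.inr ⟨j, h, rfl⟩))), Or.inr (bs_M_intro hBB)⟩

theorem bs_H_intro {A B A' B' x y : St} (hA : BS L L' A A') (hB : BS L L' B B')
    (hxy : BS L L' x y) : BS L L' (.H x A B) (.H y A' B') := by
  refine bs_up (fun a b => ∃ x y, BS L L' x y ∧ a = .H x A B ∧ b = .H y A' B') ?_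
    ⟨x, y, hxy, rfl, rfl⟩
  rintro a b ⟨x, y, hxy, rfl, rfl⟩
  obtain ⟨h1, h2, h3⟩ := bs_step hxy
  refine ⟨rfl, ?_, ?_⟩
  · intro a' ha
    rcases ch_H.1 ha with rfl | ⟨x', hx', rfl⟩ | ⟨j, hj, rfl⟩ | ⟨j, hj, rfl⟩
    · exact ⟨.dot, ch_dot _, Or.inr bs_dot⟩
    · obtain ⟨y', hy', hr⟩ := h2 x' hx'
      exact ⟨_, ch_H.2 (Or.inr (Or.inl ⟨y', hy', rfl⟩)), Or.inl ⟨x', y', hr, rfl, rfl⟩⟩
    · exact ⟨_, ch_H.2 (Or.inr (Or.inr (Or.inl ⟨j, h1.symm.trans hj, rfl⟩))),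
        Or.inr (bs_M_intro hA)⟩
    · exact ⟨_, ch_H.2 (Or.inr (Or.inr (Or.inr ⟨j, fun h => hj (h1.trans h), rfl⟩))),
        Or.inr (bs_M_intro hB)⟩
  · intro a' ha
    rcases ch_H.1 ha with rfl | ⟨x', hx', rfl⟩ | ⟨j, hj, rfl⟩ | ⟨j, hj, rfl⟩
    · exact ⟨.dot, ch_dot _, Or.inr bs_dot⟩
    · obtain ⟨y', hy', hr⟩ := h3 x' hx'
      exact ⟨_, ch_H.2 (Or.inr (Or.inl ⟨y', hy', rfl⟩)), Or.inl ⟨y', x', hr, rfl, rfl⟩⟩
    · exact ⟨_, ch_H.2 (Or.inr (Or.inr (Or.inl ⟨j, h1.trans hj, rfl⟩))),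
        Or.inr (bs_M_intro hA)⟩
    · exact ⟨_, ch_H.2 (Or.inr (Or.inr (Or.inr ⟨j, fun h => hj (h1.symm.trans h), rfl⟩))),
        Or.inr (bs_M_intro hB)⟩

theorem bs_H_reveal {A B A' B' x y : St} (hA0 : lab A ≠ 0)
    (hB : BS L L' B B') (hAB : ¬ BS L L A B)
    (h : BS L L' (.H x A B) (.H y A' B')) : BS L L' x y := by
  refine ⟨fun x y => BS L L' (.H x A B) (.H y A' B'), ?_, h⟩
  intro x y h
  obtain ⟨h1, h2, h3⟩ := bs_step h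
  refine ⟨?_, ?_, ?_⟩
  · obtain ⟨z, hz, hr⟩ := h2 (.M (lab x) A) (ch_H.2 (Or.inr (Or.inr (Or.inl ⟨_, rfl, rfl⟩))))
    rcases ch_H.1 hz with rfl | ⟨x', hx', rfl⟩ | ⟨j, hj, rfl⟩ | ⟨j, hj, rfl⟩
    · have := (bs_step hr).1; simp [lab] at this
    · have := (bs_step hr).1; simp [lab] at this; omega
    · have := (bs_M hA0 hr).1; omega
    · have := (bs_M hA0 hr).2
      exact absurd (bs_trans this (bs_symm hB)) hAB
  · intro x' hx'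
    obtain ⟨z, hz, hr⟩ := h2 (.H x' A B) (ch_H.2 (Or.inr (Or.inl ⟨_, hx', rfl⟩)))
    rcases ch_H.1 hz with rfl | ⟨y', hy', rfl⟩ | ⟨j, hj, rfl⟩ | ⟨j, hj, rfl⟩
    · have := (bs_step hr).1; simp [lab] at this
    · exact ⟨y', hy', hr⟩
    · have := (bs_step hr).1; simp [lab] at this; omega
    · have := (bs_step hr).1; simp [lab] at this; omega
  · intro x' hx'
    obtain ⟨z, hz, hr⟩ := h3 (.H x' A' B') (ch_H.2 (Or.inr (Or.inl ⟨_, hx', rfl⟩)))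
    rcases ch_H.1 hz with rfl | ⟨y', hy', rfl⟩ | ⟨j, hj, rfl⟩ | ⟨j, hj, rfl⟩
    · have := (bs_step hr).1; simp [lab] at this
    · exact ⟨y', hy', hr⟩
    · have := (bs_step hr).1; simp [lab] at this; omega
    · have := (bs_step hr).1; simp [lab] at this; omega

/-- children of `K k x` -/
theorem ch_K {k : Kind} {x : NS (TA BA Idx Jdx) (TO BO Idx)} {z : St} :
    ch L (.K k x) z ↔ z = .dot ∨ ∃ y, (gk L k).nch x y ∧ z = .K k y := by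
  cases z with
  | K k' y =>
    simp only [ch]
    constructor
    · rintro ⟨rfl, h⟩
      exact Or.inr ⟨y, h, rfl⟩
    · rintro (h | ⟨y', h', h⟩)
      · cases h
      · cases h; exact ⟨rfl, h'⟩
  | _ => simp [ch]

theorem bs_K_intro {k k' : Kind} {x y : NS (TA BA Idx Jdx) (TO BO Idx)}
    (h : Bis nlab nlab (gk L k).nch (gk L' k').nch x y) : BS L L' (.K k x) (.K k' y) := by
  obtain ⟨R, hR, hxy⟩ := h
  refine bs_up (fun a b => ∃ x y, R x y ∧ a = .K k x ∧ b = .K k' y) ?_ ⟨x, y, hxy, rfl, rfl⟩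
  rintro a b ⟨x, y, hxy, rfl, rfl⟩
  obtain ⟨h1, h2, h3⟩ := hR x y hxy
  refine ⟨congrArg (2 + ·) h1, ?_, ?_⟩
  · intro a' ha
    rcases ch_K.1 ha with rfl | ⟨x', hx', rfl⟩
    · exact ⟨.dot, ch_dot _, Or.inr bs_dot⟩
    · obtain ⟨y', hy', hr⟩ := h2 x' hx'
      exact ⟨_, ch_K.2 (Or.inr ⟨y', hy', rfl⟩), Or.inl ⟨x', y', hr, rfl, rfl⟩⟩
  · intro a' ha
    rcases ch_K.1 ha with rfl | ⟨x', hx', rfl⟩
    · exact ⟨.dot, ch_dot _, Or.inr bs_dot⟩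
    · obtain ⟨y', hy', hr⟩ := h3 x' hx'
      exact ⟨_, ch_K.2 (Or.inr ⟨y', hy', rfl⟩), Or.inl ⟨y', x', hr, rfl, rfl⟩⟩

theorem bs_K {k k' : Kind} {x y : NS (TA BA Idx Jdx) (TO BO Idx)}
    (h : BS L L' (.K k x) (.K k' y)) : Bis nlab nlab (gk L k).nch (gk L' k').nch x y := by
  refine ⟨fun x y => BS L L' (.K k x) (.K k' y), ?_, h⟩
  intro x y h
  obtain ⟨h1, h2, h3⟩ := bs_step h
  refine ⟨Nat.add_left_cancel (n := 2) h1, ?_, ?_⟩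
  · intro x' hx'
    obtain ⟨z, hz, hr⟩ := h2 (.K k x') (ch_K.2 (Or.inr ⟨x', hx', rfl⟩))
    rcases ch_K.1 hz with rfl | ⟨y', hy', rfl⟩
    · have := (bs_step hr).1; simp [lab] at this
    · exact ⟨y', hy', hr⟩
  · intro x' hx'
    obtain ⟨z, hz, hr⟩ := h3 (.K k' x') (ch_K.2 (Or.inr ⟨x', hx', rfl⟩))
    rcases ch_K.1 hz with rfl | ⟨y', hy', rfl⟩
    · have h0 := (bs_step hr).1
      exact absurd h0 (by change ¬ (0 = 2 + _); omega)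
    · exact ⟨y', hy', hr⟩

end Pool.Agent.W919.CB
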