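import Pool.Agent.W919.CB.Sys

/-!
# Coding labelled transition systems into linear orders
-/

namespace Pool.Agent.W919.CB
open Set

/-! ## The order of the blocks -/

section Blt
variable (sz : List ℚ → ℕ)

theorem blt_irrefl (e : List ℚ × ℕ) : ¬ blt sz e e := by
  unfold blt
  rintro (h | ⟨-, h | h | h⟩)
  · exact lt_irrefl _ h
  · omega
  · omega
  · omega

theorem blt_trans {a b c : List ℚ × ℕ} (h1 : blt sz a b) (h2 : blt sz b c) : blt sz a c := by
  unfold blt at *
  rcases h1 with h1 | ⟨h1, h1'⟩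
  · rcases h2 with h2 | ⟨h2, -⟩
    · exact Or.inl (lt_trans h1 h2)
    · exact Or.inl (h2 ▸ h1)
  · rcases h2 with h2 | ⟨h2, h2'⟩
    · exact Or.inl (h1 ▸ h2)
    · refine Or.inr ⟨h1.trans h2, ?_⟩
      rw [← h1] at h2'
      omega

theorem blt_total (a b : List ℚ × ℕ) (h : a ≠ b) : blt sz a b ∨ blt sz b a := by
  unfold blt
  rcases lt_trichotomy a.1 b.1 with h1 | h1 | h1
  · exact Or.inl (Or.inl h1)
  · have h2 : a.2 ≠ b.2 := fun h2 => h (Prod.ext h1 h2)
    rw [h1]
    simp only [lt_irrefl, false_or, true_and]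
    omega
  · exact Or.inr (Or.inl h1)

end Blt

/-! ## The coded order -/

/-- the fixed bijection -/
noncomputable def eE : ℕ ≃ List ℚ × ℕ := (Denumerable.eqv (List ℚ × ℕ)).symm

open Classical in
/-- the code on `ℕ` -/
noncomputable def codeOf (sz : List ℚ → ℕ) : LO :=
  ⟨fun p => decide (p.1 = p.2 ∨ blt sz (eE p.1) (eE p.2)),
    { refl := fun a => by simp
      trans := fun a b c => by
        simp only [decide_eq_true_eq]
        rintro (rfl | h1) (rfl | h2)
        · exact Or.inl rfl
        · exact Or.inr h2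
        · exact Or.inr h1
        · exact Or.inr (blt_trans sz h1 h2)
      antisymm := fun a b => by
        simp only [decide_eq_true_eq]
        rintro (rfl | h1) (h | h2)
        · rfl
        · rfl
        · exact h.symm
        · exact absurd (blt_trans sz h1 h2) (blt_irrefl sz _)
      total := fun a b => by
        simp only [decide_eq_true_eq]
        by_cases h : a = b
        · exact Or.inl (Or.inl h)
        · rcases blt_total sz (eE a) (eE b) (fun h' => h (eE.injective h')) with h' | h'
          · exact Or.inl (Or.inr h')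
          · exact Or.inr (Or.inr h') }⟩

theorem codeOf_apply (sz : List ℚ → ℕ) (a b : ℕ) :
    (codeOf sz).1 (a, b) = true ↔ a = b ∨ blt sz (eE a) (eE b) := by
  simp [codeOf]

theorem iso_codeOf (sz sz' : List ℚ → ℕ) :
    IsoLO (codeOf sz) (codeOf sz') ↔
      ∃ φ : (List ℚ × ℕ) ≃ (List ℚ × ℕ), ∀ e e', blt sz e e' ↔ blt sz' (φ e) (φ e') := by
  constructor
  · rintro ⟨f, hf⟩
    refine ⟨(eE.symm.trans f).trans eE, ?_⟩
    intro e e'
    have h1 := hf (eE.symm e) (eE.symm e')
    have h2 : (codeOf sz).1 (eE.symm e, eE.symm e') = true ↔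
        (codeOf sz').1 (f (eE.symm e), f (eE.symm e')) = true := by rw [h1]
    rw [codeOf_apply, codeOf_apply] at h2
    simp only [Equiv.apply_symm_apply, EmbeddingLike.apply_eq_iff_eq] at h2
    simp only [Equiv.trans_apply]
    by_cases h : e = e'
    · subst h
      exact ⟨fun h => absurd h (blt_irrefl _ _), fun h => absurd h (blt_irrefl _ _)⟩
    · simpa [h] using h2
  · rintro ⟨φ, hφ⟩
    refine ⟨(eE.trans φ).trans eE.symm, ?_⟩
    intro m n
    rw [Bool.eq_iff_iff, codeOf_apply, codeOf_apply]
    simp only [Equiv.trans_apply, Equiv.apply_symm_apply, EmbeddingLike.apply_eq_iff_eq, hφ]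

/-! ## States of the nodes -/

section Code
variable {Ω : Type} {S : Type} [Encodable S] (dot top : S) (lb : S → ℕ)
  (c : Ω → S → S → Prop) (κ : ℚ → ℕ)

open Classical in
/-- the `n`-th child of `x` -/
noncomputable def child (L : Ω) (x : S) (n : ℕ) : S :=
  match Encodable.decode (α := S) n with
  | some y => if c L x y then y else dot
  | none => dot

theorem child_spec (hdot : ∀ L s, c L s dot) (L : Ω) (x : S) (n : ℕ) :
    c L x (child dot c L x n) := by
  unfold child
  split
  · split
    · assumption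
    · exact hdot _ _
  · exact hdot _ _

theorem child_surj {L : Ω} {x y : S} (h : c L x y) : ∃ n, child dot c L x n = y := by
  refine ⟨Encodable.encode y, ?_⟩
  unfold child
  rw [Encodable.encodek]
  simp [h]

/-- the state of a node -/
noncomputable def state (L : Ω) (s : List ℚ) : S :=
  s.foldl (fun x q => child dot c L x (κ q)) top

theorem state_nil (L : Ω) : state dot top c κ L [] = top := rfl

theorem state_snoc (L : Ω) (s : List ℚ) (q : ℚ) :
    state dot top c κ L (s ++ [q]) = child dot c L (state dot top c κ L s) (κ q) := by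
  simp [state]

/-- block sizes -/
noncomputable def szf (L : Ω) (s : List ℚ) : ℕ :=
  1 + Nat.pair s.length (lb (state dot top c κ L s))

theorem szf_eq {L L' : Ω} {s t : List ℚ} :
    szf dot top lb c κ L s = szf dot top lb c κ L' t ↔ s.length = t.length ∧
      lb (state dot top c κ L s) = lb (state dot top c κ L' t) := by
  unfold szf
  rw [Nat.add_left_cancel_iff, Nat.pair_eq_pair]

variable [MeasurableSpace Ω]

theorem meas_child (hm : ∀ s t, MeasurableSet {L | c L s t}) (x y : S) (n : ℕ) :
    MeasurableSet {L | child dot c L x n = y} := by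
  classical
  unfold child
  cases h : Encodable.decode (α := S) n with
  | none => simp only [MeasurableSet.const]
  | some z =>
    simp only
    have : {L | (if c L x z then z else dot) = y} =
        ({L | c L x z} ∩ {_L | z = y}) ∪ ({L | c L x z}ᶜ ∩ {_L | dot = y}) := by
      ext L
      by_cases hc : c L x z <;> simp [hc]
    rw [this]
    exact ((hm x z).inter (MeasurableSet.const _)).union
      ((hm x z).compl.inter (MeasurableSet.const _))

theorem meas_state (hm : ∀ s t, MeasurableSet {L | c L s t}) (s : List ℚ) (y : S) :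
    MeasurableSet {L | state dot top c κ L s = y} := by
  induction s using List.reverseRecOn generalizing y with
  | nil => simp only [state_nil, MeasurableSet.const]
  | append_singleton s q ih =>
    have : {L | state dot top c κ L (s ++ [q]) = y} =
        ⋃ x : S, {L | state dot top c κ L s = x} ∩ {L | child dot c L x (κ q) = y} := by
      ext L
      simp [state_snoc]
    rw [this]
    have : Countable S := Encodable.countable
    exact MeasurableSet.iUnion fun x => (ih x).inter (meas_child dot c hm x y _)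

theorem meas_szf (hm : ∀ s t, MeasurableSet {L | c L s t}) (s : List ℚ) (n : ℕ) :
    MeasurableSet {L | szf dot top lb c κ L s = n} := by
  have : {L | szf dot top lb c κ L s = n} =
      ⋃ x : S, {L | state dot top c κ L s = x} ∩ {_L | 1 + Nat.pair s.length (lb x) = n} := by
    ext L
    simp [szf]
  rw [this]
  have : Countable S := Encodable.countable
  exact MeasurableSet.iUnion fun x =>
    (meas_state dot top c κ hm s x).inter (MeasurableSet.const _)

theorem meas_blt (hm : ∀ s t, MeasurableSet {L | c L s t}) (e e' : List ℚ × ℕ) :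
    MeasurableSet {L | blt (szf dot top lb c κ L) e e'} := by
  have : {L | blt (szf dot top lb c κ L) e e'} =
      ⋃ n : ℕ, {L | szf dot top lb c κ L e.1 = n} ∩ {_L | e.1 < e'.1 ∨ (e.1 = e'.1 ∧
        ((e.2 < n ∧ n ≤ e'.2) ∨ (e.2 < n ∧ e'.2 < n ∧ e.2 < e'.2) ∨
          (n ≤ e.2 ∧ n ≤ e'.2 ∧ e'.2 < e.2)))} := by
    ext L
    simp [blt]
  rw [this]
  exact MeasurableSet.iUnion fun n => (meas_szf dot top lb c κ hm _ n).inter
    (MeasurableSet.const _)

theorem meas_code (hm : ∀ s t, MeasurableSet {L | c L s t}) :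
    Measurable (fun L => codeOf (szf dot top lb c κ L)) := by
  apply Measurable.subtype_mk
  rw [measurable_pi_iff]
  intro p
  apply measurable_to_bool
  have : (fun L : Ω => (codeOf (szf dot top lb c κ L)).1 p) ⁻¹' {true} =
      {_L | p.1 = p.2} ∪ {L | blt (szf dot top lb c κ L) (eE p.1) (eE p.2)} := by
    ext L
    exact codeOf_apply _ p.1 p.2
  exact this ▸ (MeasurableSet.const _).union (meas_blt dot top lb c κ hm _ _)

end Code

/-! ## The two directions -/

section Dir
variable {Ω : Type} {S : Type} [Encodable S] {dot top : S} {lb : S → ℕ}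
  {c : Ω → S → S → Prop} {κ : ℚ → ℕ} {L L' : Ω}

theorem dir1 (hκ : Function.Surjective κ) (hdot : ∀ L s, c L s dot)
    (h2 : StDecode) (h3 : StTree)
    (h : ∃ φ : (List ℚ × ℕ) ≃ (List ℚ × ℕ), ∀ e e',
      blt (szf dot top lb c κ L) e e' ↔ blt (szf dot top lb c κ L') (φ e) (φ e')) :
    Bis lb lb (c L) (c L') top top := by
  obtain ⟨φ, hφ⟩ := h
  obtain ⟨Φ, hΦ⟩ := h2 _ _ (fun s => by unfold szf; omega) (fun s => by unfold szf; omega) φ hφ
  have hl : ∀ s, (Φ s).length = s.length := fun s => ((szf_eq dot top lb c κ).1 (hΦ s)).1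
  have hb : ∀ s, lb (state dot top c κ L' (Φ s)) = lb (state dot top c κ L s) :=
    fun s => ((szf_eq dot top lb c κ).1 (hΦ s)).2
  have hl' : ∀ s, (Φ.symm s).length = s.length := fun s => by
    rw [← hl, OrderIso.apply_symm_apply]
  refine ⟨fun x y => ∃ s, x = state dot top c κ L s ∧ y = state dot top c κ L' (Φ s), ?_, ?_⟩
  · rintro x y ⟨s, rfl, rfl⟩
    refine ⟨(hb s).symm, ?_, ?_⟩
    · intro x' hx'
      obtain ⟨n, rfl⟩ := child_surj dot c hx'
      obtain ⟨q, rfl⟩ := hκ n
      obtain ⟨q', hq'⟩ := h3 Φ hl s q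
      refine ⟨child dot c L' (state dot top c κ L' (Φ s)) (κ q'), child_spec dot c hdot _ _ _,
        s ++ [q], ?_, ?_⟩
      · rw [state_snoc]
      · rw [hq', state_snoc]
    · intro y' hy'
      obtain ⟨n, rfl⟩ := child_surj dot c hy'
      obtain ⟨q', rfl⟩ := hκ n
      obtain ⟨q, hq⟩ := h3 Φ.symm hl' (Φ s) q'
      rw [OrderIso.symm_apply_apply] at hq
      refine ⟨child dot c L (state dot top c κ L s) (κ q), child_spec dot c hdot _ _ _,
        s ++ [q], ?_, ?_⟩
      · rw [state_snoc]
      · rw [← hq, OrderIso.apply_symm_apply, state_snoc]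
  · refine ⟨[], rfl, ?_⟩
    have : Φ [] = [] := List.length_eq_zero_iff.1 (by rw [hl]; rfl)
    rw [this, state_nil]

/-- the recursive isomorphism of the node order -/
def fwd (f g : S → ℕ → S) (κ : ℚ → ℕ) (θ : S → S → (ℚ ≃o ℚ)) : S → S → List ℚ → List ℚ
  | _, _, [] => []
  | x, y, q :: s => θ x y q :: fwd f g κ θ (f x (κ q)) (g y (κ (θ x y q))) s

/-- the inverse of `fwd` -/
def bwd (f g : S → ℕ → S) (κ : ℚ → ℕ) (θ : S → S → (ℚ ≃o ℚ)) : S → S → List ℚ → List ℚ
  | _, _, [] => []
  | x, y, q :: s => (θ x y).symm q :: bwd f g κ θ (f x (κ ((θ x y).symm q))) (g y (κ q)) s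

variable (f g : S → ℕ → S) (κ : ℚ → ℕ) (θ : S → S → (ℚ ≃o ℚ))

omit [Encodable S] in
theorem bwd_fwd (x y : S) (s : List ℚ) : bwd f g κ θ x y (fwd f g κ θ x y s) = s := by
  induction s generalizing x y with
  | nil => rfl
  | cons q s ih => simp [fwd, bwd, ih]

omit [Encodable S] in
theorem fwd_bwd (x y : S) (s : List ℚ) : fwd f g κ θ x y (bwd f g κ θ x y s) = s := by
  induction s generalizing x y with
  | nil => rfl
  | cons q s ih => simp [fwd, bwd, ih]

omit [Encodable S] in
theorem fwd_length (x y : S) (s : List ℚ) : (fwd f g κ θ x y s).length = s.length := by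
  induction s generalizing x y with
  | nil => rfl
  | cons q s ih => simp [fwd, ih]

omit [Encodable S] in
theorem fwd_lt (x y : S) (s t : List ℚ) :
    fwd f g κ θ x y s < fwd f g κ θ x y t ↔ s < t := by
  induction s generalizing x y t with
  | nil =>
    cases t with
    | nil => simp [fwd]
    | cons q t => simp [fwd]
  | cons q s ih =>
    cases t with
    | nil => simp [fwd]
    | cons r t =>
      simp only [fwd, List.cons_lt_cons_iff, OrderIso.lt_iff_lt, EmbeddingLike.apply_eq_iff_eq]
      constructor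
      · rintro (h | ⟨rfl, h⟩)
        · exact Or.inl h
        · exact Or.inr ⟨rfl, (ih _ _ _).1 h⟩
      · rintro (h | ⟨rfl, h⟩)
        · exact Or.inl h
        · exact Or.inr ⟨rfl, (ih _ _ _).2 h⟩

omit [Encodable S] in
theorem fwd_rel (R : S → S → Prop)
    (hθ : ∀ x y, R x y → ∀ q, R (f x (κ q)) (g y (κ (θ x y q)))) (x y : S) (hxy : R x y)
    (s : List ℚ) :
    R (s.foldl (fun x q => f x (κ q)) x)
      ((fwd f g κ θ x y s).foldl (fun x q => g x (κ q)) y) := by
  induction s generalizing x y with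
  | nil => exact hxy
  | cons q s ih => exact ih _ _ (hθ x y hxy q)

theorem dir2 {κ : ℚ → ℕ} (hdot : ∀ L s, c L s dot)
    (h1 : ∀ Q : ℕ → ℕ → Prop, (∀ n, ∃ m, Q n m) → (∀ m, ∃ n, Q n m) →
      ∃ θ : ℚ ≃o ℚ, ∀ q, Q (κ q) (κ (θ q)))
    (h : Bis lb lb (c L) (c L') top top) :
    ∃ φ : (List ℚ × ℕ) ≃ (List ℚ × ℕ), ∀ e e',
      blt (szf dot top lb c κ L) e e' ↔ blt (szf dot top lb c κ L') (φ e) (φ e') := by
  classical
  obtain ⟨R, hR, htop⟩ := h
  have key : ∀ x y, ∃ θ : ℚ ≃o ℚ, R x y →
      ∀ q, R (child dot c L x (κ q)) (child dot c L' y (κ (θ q))) := by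
    intro x y
    by_cases hxy : R x y
    · obtain ⟨-, hf, hb⟩ := hR x y hxy
      obtain ⟨θ, hθ⟩ := h1 (fun n m => R (child dot c L x n) (child dot c L' y m))
        (fun n => by
          obtain ⟨y', hy', hr⟩ := hf _ (child_spec dot c hdot L x n)
          obtain ⟨m, rfl⟩ := child_surj dot c hy'
          exact ⟨m, hr⟩)
        (fun n => by
          obtain ⟨y', hy', hr⟩ := hb _ (child_spec dot c hdot L' y n)
          obtain ⟨m, rfl⟩ := child_surj dot c hy'
          exact ⟨m, hr⟩)
      exact ⟨θ, fun _ => hθ⟩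
    · exact ⟨OrderIso.refl ℚ, fun h => absurd h hxy⟩
  choose θ hθ using key
  let F : List ℚ ≃ List ℚ :=
    { toFun := fwd (child dot c L) (child dot c L') κ θ top top
      invFun := bwd (child dot c L) (child dot c L') κ θ top top
      left_inv := bwd_fwd _ _ _ _ _ _
      right_inv := fwd_bwd _ _ _ _ _ _ }
  have hsz : ∀ s, szf dot top lb c κ L s = szf dot top lb c κ L' (F s) := by
    intro s
    rw [szf_eq]
    refine ⟨(fwd_length _ _ _ _ _ _ _).symm, ?_⟩
    have := fwd_rel (child dot c L) (child dot c L') κ θ R hθ top top htop s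
    exact (hR _ _ this).1
  have hlt : ∀ s t, F s < F t ↔ s < t := fun s t => fwd_lt _ _ _ _ _ _ _ _
  refine ⟨F.prodCongr (Equiv.refl ℕ), ?_⟩
  rintro ⟨s, i⟩ ⟨t, j⟩
  simp only [blt, Equiv.prodCongr_apply, Prod.map_apply, Equiv.refl_apply,
    EmbeddingLike.apply_eq_iff_eq, hlt, ← hsz]

end Dir

theorem t_coding (h1 : StColour) (h2 : StDecode) (h3 : StTree) : StCoding := by
  intro Ω _ S _ dot top lb c hm hdot
  obtain ⟨κ, hκ, hκ2⟩ := h1
  refine ⟨fun L => codeOf (szf dot top lb c κ L), meas_code dot top lb c κ hm, ?_⟩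
  intro L L'
  rw [iso_codeOf]
  exact ⟨dir1 hκ hdot h2 h3, dir2 hdot hκ2⟩

end Pool.Agent.W919.CB
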