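import Mathlib

/-!
# Convex bi-embeddability of countable linear orders: definitions

Plan (MP_387a72_lc): a Borel reduction of convex bi-embeddability on `LO` to isomorphism on `LO`.
-/

namespace Pool.Agent.W919.CB
open Set

/-! ## Codes of linear orders on `ℕ` -/

/-- `x` codes a (reflexive) linear order on `ℕ`. -/
structure IsCode (x : ℕ × ℕ → Bool) : Prop where
  refl : ∀ a, x (a, a) = true
  trans : ∀ a b c, x (a, b) = true → x (b, c) = true → x (a, c) = true
  antisymm : ∀ a b, x (a, b) = true → x (b, a) = true → a = b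
  total : ∀ a b, x (a, b) = true ∨ x (b, a) = true

/-- The space of codes of linear orders on `ℕ`, a subspace of `2^(ℕ × ℕ)`. -/
def LO : Type := {x : ℕ × ℕ → Bool // IsCode x}

instance : TopologicalSpace LO := inferInstanceAs (TopologicalSpace {x : ℕ × ℕ → Bool // IsCode x})
instance : MeasurableSpace LO := inferInstanceAs (MeasurableSpace {x : ℕ × ℕ → Bool // IsCode x})

/-- strict order of the code `L` -/
def LO.lt (L : LO) (a b : ℕ) : Prop := L.1 (a, b) = true ∧ ¬ (L.1 (b, a) = true)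

/-- the linear order coded by `L` (a copy of `ℕ`). -/
def Ty (_L : LO) : Type := ℕ

noncomputable instance (L : LO) : LinearOrder (Ty L) where
  le a b := L.1 ((a : ℕ), (b : ℕ)) = true
  lt a b := L.lt a b
  lt_iff_le_not_ge _ _ := Iff.rfl
  le_refl a := L.2.refl a
  le_trans a b c h1 h2 := L.2.trans a b c h1 h2
  le_antisymm a b h1 h2 := L.2.antisymm a b h1 h2
  le_total a b := L.2.total a b
  toDecidableLE := Classical.decRel _

instance (L : LO) : Countable (Ty L) := inferInstanceAs (Countable ℕ)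
instance (L : LO) : Infinite (Ty L) := inferInstanceAs (Infinite ℕ)

/-- The reversed order. -/
def LO.rev (L : LO) : LO :=
  ⟨fun p => L.1 (p.2, p.1),
    { refl := fun a => L.2.refl a
      trans := fun a b c h1 h2 => L.2.trans c b a h2 h1
      antisymm := fun a b h1 h2 => L.2.antisymm a b h2 h1
      total := fun a b => (L.2.total b a) }⟩

/-- Isomorphism of coded orders. -/
def IsoLO (x y : LO) : Prop := ∃ f : ℕ ≃ ℕ, ∀ m n, x.1 (m, n) = y.1 (f m, f n)

/-- Convex embeddability of coded orders. -/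
def ConvEmb (x y : LO) : Prop :=
  ∃ f : ℕ → ℕ, (∀ m n, x.1 (m, n) = y.1 (f m, f n)) ∧
    ∀ a b c, a ∈ range f → c ∈ range f → y.1 (a, b) = true → y.1 (b, c) = true → b ∈ range f

/-- Convex bi-embeddability. -/
def BiEmb (x y : LO) : Prop := ConvEmb x y ∧ ConvEmb y x

/-! ## Labelled transition systems and bisimilarity -/

section Bis
variable {X Y : Type}

/-- `R` is a bisimulation between the systems `(lx, cx)` and `(ly, cy)`. -/
def IsBis (lx : X → ℕ) (ly : Y → ℕ) (cx : X → X → Prop) (cy : Y → Y → Prop)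
    (R : X → Y → Prop) : Prop :=
  ∀ a b, R a b → lx a = ly b ∧ (∀ a', cx a a' → ∃ b', cy b b' ∧ R a' b') ∧
    (∀ b', cy b b' → ∃ a', cx a a' ∧ R a' b')

/-- Bisimilarity of the state `a` of `(lx, cx)` and the state `b` of `(ly, cy)`. -/
def Bis (lx : X → ℕ) (ly : Y → ℕ) (cx : X → X → Prop) (cy : Y → Y → Prop)
    (a : X) (b : Y) : Prop :=
  ∃ R : X → Y → Prop, IsBis lx ly cx cy R ∧ R a b

end Bis

/-! ## Isomorphism of subsets, back-and-forth ranks -/

section Ord
variable {α β : Type} [LinearOrder α] [LinearOrder β]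

/-- The suborders `S` and `T` are isomorphic. -/
def IsoS (S : Set α) (T : Set β) : Prop := Nonempty (S ≃o T)

/-- Back-and-forth equivalence of rank `γ` of the suborders `S` and `T`. -/
def EF (γ : Ordinal.{0}) (S : Set α) (T : Set β) : Prop :=
  ∀ δ < γ,
    (∀ a ∈ S, ∃ b ∈ T, EF δ (S ∩ Iio a) (T ∩ Iio b) ∧ EF δ (S ∩ Ioi a) (T ∩ Ioi b)) ∧
    (∀ b ∈ T, ∃ a ∈ S, EF δ (S ∩ Iio a) (T ∩ Iio b) ∧ EF δ (S ∩ Ioi a) (T ∩ Ioi b))
termination_by γ

end Ord

section OrdProps
variable (α : Type) [LinearOrder α]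

/-- `α` is isomorphic to a final segment of some `(x, ∞)`. -/
def LeftSA : Prop := ∃ x : α, ∃ T : Set α, T ⊆ Ioi x ∧ IsUpperSet T ∧ Nonempty (α ≃o T)

/-- `α` is isomorphic to an initial segment of some `(-∞, y)`. -/
def RightSA : Prop := ∃ y : α, ∃ T : Set α, T ⊆ Iio y ∧ IsLowerSet T ∧ Nonempty (α ≃o T)

/-- `α` is isomorphic to a convex subset of some bounded interval. -/
def BddSA : Prop :=
  ∃ x y : α, ∃ T : Set α, T ⊆ Ioo x y ∧ T.OrdConnected ∧ Nonempty (α ≃o T)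

/-- The statement of the one sided game. -/
def StarL : Prop :=
  ∀ z : α, ∃ x y : α, x < y ∧ IsoS (Ioi z) (Ioi y) ∧
    ∀ u < z, ∃ u', x < u' ∧ u' < y ∧ IsoS (Ioo u z) (Ioo u' y)

/-- The statement of the two sided bounded game. -/
def StarD : Prop :=
  ∀ z w : α, z < w → ∃ x z' w' y : α, x < z' ∧ z' < w' ∧ w' < y ∧
    IsoS (Ioo z w) (Ioo z' w') ∧
    (∀ u < z, ∃ u', x < u' ∧ u' < z' ∧ IsoS (Ioo u z) (Ioo u' z')) ∧
    (∀ v > w, ∃ v', w' < v' ∧ v' < y ∧ IsoS (Ioo w v) (Ioo w' v'))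

/-- rank sets of the games (see the plan) -/
def GamA (γ : Ordinal.{0}) : Prop :=
  ∀ z0 z w : α, z0 < z → z < w → ∀ δ < γ, ∃ z0' z' w' y : α, z0' < z' ∧ z' < w' ∧ w' < y ∧
    EF δ (Ioo z0 z) (Ioo z0' z') ∧ EF δ (Ioo z w) (Ioo z' w') ∧
    ∀ v > w, ∀ ε < δ, ∃ v', w' < v' ∧ v' < y ∧ EF ε (Ioo w v) (Ioo w' v')

def GamB (γ : Ordinal.{0}) : Prop :=
  ∀ z w w0 : α, z < w → w < w0 → ∀ δ < γ, ∃ x z' w' w0' : α, x < z' ∧ z' < w' ∧ w' < w0' ∧
    EF δ (Ioo z w) (Ioo z' w') ∧ EF δ (Ioo w w0) (Ioo w' w0') ∧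
    ∀ u < z, ∀ ε < δ, ∃ u', x < u' ∧ u' < z' ∧ EF ε (Ioo u z) (Ioo u' z')

def GamD (γ : Ordinal.{0}) : Prop :=
  ∀ z w : α, z < w → ∀ δ < γ, ∃ x z' w' y : α, x < z' ∧ z' < w' ∧ w' < y ∧
    EF δ (Ioo z w) (Ioo z' w') ∧
    (∀ u < z, ∀ ε < δ, ∃ u', x < u' ∧ u' < z' ∧ EF ε (Ioo u z) (Ioo u' z')) ∧
    (∀ v > w, ∀ ε < δ, ∃ v', w' < v' ∧ v' < y ∧ EF ε (Ioo w v) (Ioo w' v'))

def GamL (γ : Ordinal.{0}) : Prop :=
  ∀ z : α, ∀ δ < γ, ∃ x y : α, x < y ∧ EF δ (Ioi z) (Ioi y) ∧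
    ∀ u < z, ∀ ε < δ, ∃ u', x < u' ∧ u' < y ∧ EF ε (Ioo u z) (Ioo u' y)

end OrdProps

/-- A convex embedding of `α` into `β`. -/
def CEmb (α β : Type) [LinearOrder α] [LinearOrder β] (f : α → β) : Prop :=
  (∀ a b, f a ≤ f b ↔ a ≤ b) ∧ (range f).OrdConnected

/-! ## Abstract games -/

/-- A game graph: AND-positions `A` with challenges `C`, OR-positions `O` with responses `R`. -/
structure Game where
  A : Type
  O : Type
  C : A → O → Prop
  R : O → A → Prop

/-- The OR-position `σ` survives `γ`. -/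
def Game.AliveO (G : Game) (γ : Ordinal.{0}) (σ : G.O) : Prop :=
  ∀ δ < γ, ∃ q, G.R σ q ∧ ∀ τ, G.C q τ → G.AliveO δ τ
termination_by γ

/-- The AND-position `p` survives `γ`. -/
def Game.AliveA (G : Game) (γ : Ordinal.{0}) (p : G.A) : Prop := ∀ τ, G.C p τ → G.AliveO γ τ

/-- States of the normalised system of a game. -/
inductive NS (A O : Type) where
  | a (p u : A)
  | o (σ v : O)

/-- Children in the normalised system. -/
def Game.nch (G : Game) : NS G.A G.O → NS G.A G.O → Prop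
  | .a p u, .o σ _ => G.C p σ ∨ G.C u σ
  | .o σ v, .a q _ => G.R σ q ∨ G.R v q
  | _, _ => False

/-- Labels of the normalised system. -/
def nlab {A O : Type} : NS A O → ℕ
  | .a _ _ => 0
  | .o _ _ => 1

/-- The games `G` and `G'` have the same ranks. -/
structure SameRanks (G G' : Game) : Prop where
  A1 : ∀ p : G.A, ∃ p' : G'.A, ∀ γ, G.AliveA γ p ↔ G'.AliveA γ p'
  A2 : ∀ p' : G'.A, ∃ p : G.A, ∀ γ, G.AliveA γ p ↔ G'.AliveA γ p'
  O1 : ∀ p : G.O, ∃ p' : G'.O, ∀ γ, G.AliveO γ p ↔ G'.AliveO γ p'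
  O2 : ∀ p' : G'.O, ∃ p : G.O, ∀ γ, G.AliveO γ p ↔ G'.AliveO γ p'

/-- Closure properties of a base game. -/
structure Good (G : Game) : Prop where
  ne : ∀ p : G.A, ∃ σ, G.C p σ
  sing : ∀ σ : G.O, ∃ p : G.A, ∀ γ, G.AliveA γ p ↔ G.AliveO γ σ
  top : ∃ p : G.A, ∀ γ, G.AliveA γ p
  dead : ∃ σ : G.O, ∀ q, ¬ G.R σ q

/-- AND-positions of a three phase game -/
inductive TA (A I J : Type) where
  | base (p : A)
  | root
  | pos (i : I) (j : J)

/-- OR-positions of a three phase game -/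
inductive TO (O I : Type) where
  | base (σ : O)
  | d
  | sig (i : I)

/-- Three phase game over the base game `U`. -/
def three (U : Game) (I J : Type) (val : I → Prop) (res : I → J → Prop)
    (leaf : I → J → U.O → Prop) : Game where
  A := TA U.A I J
  O := TO U.O I
  C
    | .base p, .base σ => U.C p σ
    | .root, .d => True
    | .root, .sig i => val i
    | .pos i j, .base σ => leaf i j σ
    | .pos _ _, .d => True
    | .pos _ _, .sig i' => val i'
    | _, _ => False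
  R
    | .base σ, .base p => U.R σ p
    | .d, .root => True
    | .sig i, .pos i' j => i = i' ∧ val i ∧ res i j
    | _, _ => False

/-- The rank set of the root of a three phase game. -/
def Gam (U : Game) {I J : Type} (val : I → Prop) (res : I → J → Prop)
    (leaf : I → J → U.O → Prop) (γ : Ordinal.{0}) : Prop :=
  ∀ i, val i → ∀ δ < γ, ∃ j, res i j ∧ ∀ ω, leaf i j ω → U.AliveO δ ω

end Pool.Agent.W919.CB
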