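import Pool.Agent.W919.CB.Defs

/-!
# Convex bi-embeddability: the transition system of a code
-/

namespace Pool.Agent.W919.CB
open Set

/-- Interval codes: `none` on the left is `-∞`, on the right `+∞`. -/
abbrev Iv := Option ℕ × Option ℕ

/-- membership of `p` in the open interval `X` -/
def LO.mem (L : LO) (X : Iv) (p : ℕ) : Prop :=
  (∀ a, X.1 = some a → L.lt a p) ∧ (∀ b, X.2 = some b → L.lt p b)

/-- the open interval `X` as a set -/
def LO.iv (L : LO) (X : Iv) : Set (Ty L) := {p | L.mem X p}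

/-- allowed codes: for `m = false` bounded intervals, for `m = true` intervals bounded on the
left. -/
def okIv (m : Bool) (X : Iv) : Prop := X.1 ≠ none ∧ (m = true ∨ X.2 ≠ none)

/-- OR-positions of the base game -/
inductive BO where
  | iso (X Y : Iv) (s : Bool) (p : ℕ)
  | oml (u z x y : ℕ)
  | omr (w v x y : ℕ)
  | tO
  | dead
deriving Encodable

/-- AND-positions of the base game -/
inductive BA where
  | Q (X Y X' Y' : Iv)
  | sing (ω : BO)
  | tA
deriving Encodable

/-- The base game: `Q X Y X' Y'` states that `X ≅ Y` and `X' ≅ Y'`; `oml u z x y` that there is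
`u' ∈ (x, y)` with `(u, z) ≅ (u', y)`; `omr w v x y` that there is `v' ∈ (x, y)` with
`(w, v) ≅ (x, v')`. -/
def base (m : Bool) (L : LO) : Game where
  A := BA
  O := BO
  C
    | _, .tO => True
    | .Q X Y X' Y', .iso Z W s p =>
        ((Z = X ∧ W = Y) ∨ (Z = X' ∧ W = Y')) ∧ okIv m Z ∧ okIv m W ∧
          ((s = true ∧ L.mem Z p) ∨ (s = false ∧ L.mem W p))
    | .sing ω, σ => σ = ω
    | _, _ => False
  R
    | .iso X Y s p, .Q A B A' B' =>
        okIv m X ∧ okIv m Y ∧ ∃ a b, ((s = true ∧ a = p) ∨ (s = false ∧ b = p)) ∧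
          L.mem X a ∧ L.mem Y b ∧
          A = (X.1, some a) ∧ B = (Y.1, some b) ∧ A' = (some a, X.2) ∧ B' = (some b, Y.2)
    | .oml u z x y, .Q A B A' B' =>
        ∃ u', L.lt x u' ∧ L.lt u' y ∧ A = (some u, some z) ∧ B = (some u', some y) ∧
          A' = A ∧ B' = B
    | .omr w v x y, .Q A B A' B' =>
        ∃ v', L.lt x v' ∧ L.lt v' y ∧ A = (some w, some v) ∧ B = (some x, some v') ∧
          A' = A ∧ B' = B
    | .tO, .tA => True
    | _, _ => False

/-- first moves of Spoiler in the three phase games -/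
inductive Idx where
  | A (z0 z w : ℕ)
  | B (z w w0 : ℕ)
  | D (z w : ℕ)
  | L (z : ℕ)
deriving Encodable

/-- first moves of Duplicator -/
inductive Jdx where
  | mk (x z w y : ℕ)
deriving Encodable

/-- The kinds of three phase games. -/
inductive Kind where
  | kA | kE | k1 | k2 | kL | kF
deriving Encodable

/-- mode of the base game -/
def Kind.mode : Kind → Bool
  | .kL => true
  | .kF => true
  | _ => false

/-- the legal first moves of Spoiler -/
def vl (L : LO) (k : Kind) : Idx → Prop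
  | .A z0 z w => (k = .kA ∨ k = .k1 ∨ k = .k2) ∧ L.lt z0 z ∧ L.lt z w
  | .B z w w0 => (k = .k1 ∨ k = .k2) ∧ L.lt z w ∧ L.lt w w0
  | .D z w => k = .k1 ∧ L.lt z w
  | .L _ => k = .kL

/-- the legal first moves of Duplicator -/
def rs (L : LO) : Idx → Jdx → Prop
  | .L _, .mk x z _ _ => L.lt x z
  | _, .mk x z w y => L.lt x z ∧ L.lt z w ∧ L.lt w y

/-- the leaves of the three phase games -/
def lf (L : LO) (k : Kind) : Idx → Jdx → BO → Prop
  | .A z0 z w, .mk x z' w' y, ω =>
      (base k.mode L).C (.Q (some z0, some z) (some x, some z') (some z, some w)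
        (some z', some w')) ω ∨ ∃ v, L.lt w v ∧ ω = .omr w v w' y
  | .B z w w0, .mk x z' w' y, ω =>
      (base k.mode L).C (.Q (some z, some w) (some z', some w') (some w, some w0)
        (some w', some y)) ω ∨ ∃ u, L.lt u z ∧ ω = .oml u z x z'
  | .D z w, .mk x z' w' y, ω =>
      (base k.mode L).C (.Q (some z, some w) (some z', some w') (some z, some w)
        (some z', some w')) ω ∨ (∃ u, L.lt u z ∧ ω = .oml u z x z') ∨
        ∃ v, L.lt w v ∧ ω = .omr w v w' y
  | .L z, .mk x y _ _, ω =>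
      (base k.mode L).C (.Q (some z, none) (some y, none) (some z, none) (some y, none)) ω ∨
        ∃ u, L.lt u z ∧ ω = .oml u z x y

/-- the three phase game of kind `k` -/
def gk (L : LO) (k : Kind) : Game :=
  three (base k.mode L) Idx Jdx (vl L k) (rs L) (lf L k)

deriving instance Encodable for TA
deriving instance Encodable for TO
deriving instance Encodable for NS

/-- states of the transition system -/
inductive St where
  | dot
  | T (s : ℕ) (X : Iv)
  | P (X : Iv) (p : ℕ)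
  | K (k : Kind) (x : NS (TA BA Idx Jdx) (TO BO Idx))
  | H (x A B : St)
  | M (j : ℕ) (x : St)
  | pr (x y : St)
  | lam
  | fl
deriving Encodable

/-- labels -/
def lab : St → ℕ
  | .dot => 0
  | .P _ _ => 1
  | .K _ x => 2 + nlab x
  | .H _ _ _ => 4
  | .pr _ _ => 5
  | .lam => 6
  | .fl => 7
  | .T s _ => 8 + 2 * s
  | .M j _ => 9 + 2 * j

/-- the transition relation -/
def ch (L : LO) : St → St → Prop
  | _, .dot => True
  | .T _ X, .P Y p => Y = X ∧ L.mem X p
  | .P X p, .T s Y => (s = 1 ∧ Y = (X.1, some p)) ∨ (s = 2 ∧ Y = (some p, X.2))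
  | .K k x, .K k' y => k' = k ∧ (gk L k).nch x y
  | .H x A B, .H y A' B' => A' = A ∧ B' = B ∧ ch L x y
  | .H x A B, .M j y => (lab x = j ∧ y = A) ∨ (lab x ≠ j ∧ y = B)
  | .M _ x, y => y = x
  | .pr x y, .M j z => (j = 0 ∧ z = x) ∨ (j = 1 ∧ z = y)
  | .lam, .T s X => s = 0 ∧ X.1 ≠ none ∧ X.2 ≠ none
  | .fl, .T s X => s = 0 ∧ X.1 ≠ none ∧ X.2 = none
  | _, _ => False

/-- bisimilarity of states of the systems of `L` and `L'` -/
def BS (L L' : LO) (x y : St) : Prop := Bis lab lab (ch L) (ch L') x y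

/-- root of the normalised game of kind `k` -/
def kroot (k : Kind) : St := .K k (.a .root .root)

/-- `x` hidden by the pair `A, B` -/
def hd (x A B : St) : St := .pr A (.pr B (.H x A B))

/-- the whole order -/
def whole : St := .T 0 (none, none)

/-- inner part -/
def Yst : St := .pr .fl (hd whole (kroot .kL) (kroot .kF))

/-- the code of `L` (one side) -/
def topSt : St :=
  .pr .lam (.pr (hd Yst (kroot .kA) (kroot .kE)) (hd whole (kroot .k1) (kroot .k2)))

/-- bounded intervals of `L` occur in `L'` -/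
def SameB (L L' : LO) : Prop :=
  ∀ a b : ℕ, ∃ a' b' : ℕ, IsoS (L.iv (some a, some b)) (L'.iv (some a', some b'))

/-- upper half lines of `L` occur in `L'` -/
def SameF (L L' : LO) : Prop :=
  ∀ a : ℕ, ∃ a' : ℕ, IsoS (L.iv (some a, none)) (L'.iv (some a', none))

/-! ## The statements of the subtasks -/

/-- back-and-forth ranks: invariance, symmetry -/
def StEFinv : Prop :=
  ∀ (α α' β β' : Type) [LinearOrder α] [LinearOrder α'] [LinearOrder β] [LinearOrder β']
    (γ : Ordinal.{0}) (S : Set α) (S' : Set α') (T : Set β) (T' : Set β'),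
    IsoS S S' → IsoS T T' → EF γ S T → EF γ S' T'

def StEFiso : Prop :=
  ∀ (α β : Type) [LinearOrder α] [LinearOrder β] (γ : Ordinal.{0}) (S : Set α) (T : Set β),
    IsoS S T → EF γ S T

def StEFcount : Prop :=
  ∀ (α β : Type) [LinearOrder α] [LinearOrder β] [Countable α] [Countable β]
    (S : Set α) (T : Set β), (∀ γ, EF γ S T) → IsoS S T

/-- states of intervals are bisimilar iff the intervals are isomorphic -/
def StT : Prop :=
  ∀ (L L' : LO) (s : ℕ) (X Y : Iv), BS L L' (.T s X) (.T s Y) ↔ IsoS (L.iv X) (L'.iv Y)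

def StStarL : Prop :=
  ∀ (α : Type) [LinearOrder α] [Countable α] [Nonempty α], StarL α → LeftSA α

def StStarD : Prop :=
  ∀ (α : Type) [LinearOrder α] [Countable α] [Nontrivial α], StarD α → BddSA α

/-- self embeddings -/
def StLind : Prop :=
  ∀ (α : Type) [LinearOrder α] (h : α → α) (x : α), CEmb α α h → (∀ t, x < h t) → LeftSA α

def StClass : Prop :=
  ∀ (α β : Type) [LinearOrder α] [LinearOrder β] (f : α → β) (g : β → α),
    CEmb α β f → CEmb β α g →
      (¬ LeftSA α → ¬ RightSA α → Nonempty (α ≃o β)) ∧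
      (¬ RightSA α → IsUpperSet (range f) ∧ IsUpperSet (range g)) ∧
      (LeftSA α → LeftSA β) ∧ (RightSA α → RightSA β)

def StGamInv : Prop :=
  ∀ (α β : Type) [LinearOrder α] [LinearOrder β] (f : α → β) (g : β → α) (γ : Ordinal.{0}),
    CEmb α β f → CEmb β α g →
      (GamA α γ → GamA β γ) ∧ (GamB α γ → GamB β γ) ∧ (GamD α γ → GamD β γ) ∧
      (IsUpperSet (range f) → IsUpperSet (range g) → GamL α γ → GamL β γ)

def StGamStar : Prop :=
  ∀ (α : Type) [LinearOrder α] [Countable α],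
    ((∀ γ, GamD α γ) → StarD α) ∧ ((∀ γ, GamL α γ) → StarL α)

def StGamSA : Prop :=
  ∀ (α : Type) [LinearOrder α] (γ : Ordinal.{0}),
    (RightSA α → GamA α γ) ∧ (LeftSA α → GamL α γ) ∧
    (LeftSA α → GamA α γ → GamD α γ) ∧ (RightSA α → GamB α γ → GamD α γ)

def StGamRev : Prop :=
  ∀ (L : LO) (γ : Ordinal.{0}), GamA (Ty L.rev) γ ↔ GamB (Ty L) γ

/-- the three phase games -/
def StThree : Prop :=
  ∀ (U : Game) (I J : Type) (val : I → Prop) (res : I → J → Prop) (leaf : I → J → U.O → Prop),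
    Good U →
      (∀ γ, (three U I J val res leaf).AliveA γ .root ↔ Gam U val res leaf γ) ∧
      (∀ p : (three U I J val res leaf).A, ∃ σ, (three U I J val res leaf).C p σ)

def StThreeSame : Prop :=
  ∀ (U U' : Game) (I J I' J' : Type) (val : I → Prop) (res : I → J → Prop)
    (leaf : I → J → U.O → Prop) (val' : I' → Prop) (res' : I' → J' → Prop)
    (leaf' : I' → J' → U'.O → Prop), Good U → Good U' → SameRanks U U' →
    (∀ γ, Gam U val res leaf γ ↔ Gam U' val' res' leaf' γ) →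
    SameRanks (three U I J val res leaf) (three U' I' J' val' res' leaf')

def StNormB : Prop :=
  ∀ (G G' : Game), (∀ p : G.A, ∃ σ, G.C p σ) → (∀ p : G'.A, ∃ σ, G'.C p σ) → SameRanks G G' →
    ∀ (p u : G.A) (p' u' : G'.A),
      (∀ γ, (G.AliveA γ p ∧ G.AliveA γ u) ↔ (G'.AliveA γ p' ∧ G'.AliveA γ u')) →
      Bis nlab nlab G.nch G'.nch (.a p u) (.a p' u')

def StNormN : Prop :=
  ∀ (G G' : Game) (p u : G.A) (p' u' : G'.A),
    Bis nlab nlab G.nch G'.nch (.a p u) (.a p' u') →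
    ∀ γ, (G.AliveA γ p ∧ G.AliveA γ u) ↔ (G'.AliveA γ p' ∧ G'.AliveA γ u')

/-- the base game -/
def StBaseGood : Prop := ∀ (m : Bool) (L : LO), Good (base m L)

def StBaseQ : Prop :=
  ∀ (m : Bool) (L : LO) (γ : Ordinal.{0}) (X Y X' Y' : Iv),
    okIv m X → okIv m Y → okIv m X' → okIv m Y' →
    ((base m L).AliveA γ (.Q X Y X' Y') ↔
      EF γ (L.iv X) (L.iv Y) ∧ EF γ (L.iv X') (L.iv Y'))

def StBaseSame : Prop :=
  ∀ (m : Bool) (L L' : LO), SameB L L' → SameB L' L →
    (m = true → SameF L L' ∧ SameF L' L) → SameRanks (base m L) (base m L')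

def StGamK : Prop :=
  ∀ (L : LO) (γ : Ordinal.{0}),
    (Gam (base false L) (vl L .kA) (rs L) (lf L .kA) γ ↔ GamA (Ty L) γ) ∧
    (Gam (base false L) (vl L .kE) (rs L) (lf L .kE) γ) ∧
    (Gam (base false L) (vl L .k1) (rs L) (lf L .k1) γ ↔
      GamA (Ty L) γ ∧ GamB (Ty L) γ ∧ GamD (Ty L) γ) ∧
    (Gam (base false L) (vl L .k2) (rs L) (lf L .k2) γ ↔ GamA (Ty L) γ ∧ GamB (Ty L) γ) ∧
    (Gam (base true L) (vl L .kL) (rs L) (lf L .kL) γ ↔ GamL (Ty L) γ) ∧
    (Gam (base true L) (vl L .kF) (rs L) (lf L .kF) γ)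

def StMeas : Prop := ∀ s t : St, MeasurableSet {L : LO | ch L s t}

/-- Lemma A -/
def StLemA : Prop :=
  ∀ (α β : Type) [LinearOrder α] [LinearOrder β] [Countable α],
    (∀ x : α, ∃ u : α, ∀ u' : α, x < u' → ¬ IsoS (Ioi u) (Ioi u')) →
    (∀ u : α, ∃ u' : β, IsoS (Ioi u) (Ioi u')) →
    ∃ T : Set β, IsUpperSet T ∧ Nonempty (α ≃o T)

/-- Lemma C -/
def StLemC : Prop :=
  ∀ (α : Type) [LinearOrder α] [Countable α] [Nonempty α],
    (∀ z : α, ∃ x < z, ∀ u < z, ∃ u', x < u' ∧ u' < z ∧ IsoS (Ioo u z) (Ioo u' z)) → LeftSA α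

/-- Cantor's theorem with colours -/
def StColour : Prop :=
  ∃ κ : ℚ → ℕ, Function.Surjective κ ∧
    ∀ Q : ℕ → ℕ → Prop, (∀ n, ∃ m, Q n m) → (∀ m, ∃ n, Q n m) →
      ∃ θ : ℚ ≃o ℚ, ∀ q, Q (κ q) (κ (θ q))

/-- strict order on `List ℚ × ℕ`: nodes `s : List ℚ` ordered lexicographically (`[]` is the least),
the block of `s` is `n + ω*` with `n = sz s`. -/
def blt (sz : List ℚ → ℕ) (e e' : List ℚ × ℕ) : Prop :=
  e.1 < e'.1 ∨ (e.1 = e'.1 ∧
    ((e.2 < sz e.1 ∧ sz e.1 ≤ e'.2) ∨ (e.2 < sz e.1 ∧ e'.2 < sz e.1 ∧ e.2 < e'.2) ∨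
      (sz e.1 ≤ e.2 ∧ sz e.1 ≤ e'.2 ∧ e'.2 < e.2)))

/-- decoding of the block sizes -/
def StDecode : Prop :=
  ∀ sz sz' : List ℚ → ℕ, (∀ s, 1 ≤ sz s) → (∀ s, 1 ≤ sz' s) →
    ∀ φ : (List ℚ × ℕ) ≃ (List ℚ × ℕ), (∀ e e', blt sz e e' ↔ blt sz' (φ e) (φ e')) →
      ∃ Φ : List ℚ ≃o List ℚ, ∀ s, sz' (Φ s) = sz s

/-- level preserving automorphisms of the node order preserve the tree structure -/
def StTree : Prop :=
  ∀ Φ : List ℚ ≃o List ℚ, (∀ s, (Φ s).length = s.length) →
    ∀ s q, ∃ q', Φ (s ++ [q]) = Φ s ++ [q']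

/-- coding of transition systems into linear orders -/
def StCoding : Prop :=
  ∀ (Ω : Type) [MeasurableSpace Ω] (S : Type) [Encodable S] (dot top : S) (lb : S → ℕ)
    (c : Ω → S → S → Prop), (∀ s t, MeasurableSet {L | c L s t}) → (∀ L s, c L s dot) →
    ∃ B : Ω → LO, Measurable B ∧
      ∀ L L', IsoLO (B L) (B L') ↔ Bis lb lb (c L) (c L') top top

end Pool.Agent.W919.CB
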