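import Pool.Agent.W919.CB.Asm

/-!
# The two sided system; from the coding theorem to a Borel reduction
-/

namespace Pool.Agent.W919.CB
open Set

instance : BorelSpace LO := inferInstanceAs (BorelSpace {x : ℕ × ℕ → Bool // IsCode x})

/-- states of the two sided system -/
inductive St2 where
  | dot
  | root
  | st (b : Bool) (x : St)
deriving Encodable

/-- `L` or its reversal -/
def side (L : LO) : Bool → LO
  | true => L.rev
  | false => L

/-- transitions of the two sided system -/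
def ch2 (L : LO) : St2 → St2 → Prop
  | _, .dot => True
  | .root, .st _ y => y = topSt
  | .st b x, .st b' y => b' = b ∧ ch (side L b) x y
  | _, _ => False

/-- labels of the two sided system -/
def lab2 : St2 → ℕ
  | .dot => 0
  | .root => 1
  | .st b x => 2 + 2 * lab x + b.toNat

variable {L L' : LO}

theorem ch2_dot (s : St2) : ch2 L s .dot := by
  cases s <;> simp [ch2]

theorem ch2_of_dot {s : St2} (h : ch2 L .dot s) : s = .dot := by
  cases s <;> simp_all [ch2]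

theorem ch2_root {s : St2} : ch2 L .root s ↔ s = .dot ∨ ∃ b, s = .st b topSt := by
  cases s <;> simp [ch2]

theorem ch2_st {b : Bool} {x : St} {s : St2} :
    ch2 L (.st b x) s ↔ s = .dot ∨ ∃ y, ch (side L b) x y ∧ s = .st b y := by
  cases s with
  | st b' y =>
    simp only [ch2]
    constructor
    · rintro ⟨rfl, h⟩
      exact Or.inr ⟨y, h, rfl⟩
    · rintro (h | ⟨y', h', h⟩)
      · cases h
      · cases h; exact ⟨rfl, h'⟩
  | _ => simp [ch2]

/-- bisimilarity of the two sided system -/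
def BS2 (L L' : LO) (x y : St2) : Prop := Bis lab2 lab2 (ch2 L) (ch2 L') x y

theorem bs2_step {x y : St2} (h : BS2 L L' x y) :
    lab2 x = lab2 y ∧ (∀ x', ch2 L x x' → ∃ y', ch2 L' y y' ∧ BS2 L L' x' y') ∧
      (∀ y', ch2 L' y y' → ∃ x', ch2 L x x' ∧ BS2 L L' x' y') := by
  obtain ⟨R, hR, hxy⟩ := h
  obtain ⟨h1, h2, h3⟩ := hR x y hxy
  refine ⟨h1, ?_, ?_⟩
  · intro x' hx'
    obtain ⟨y', hy', hr⟩ := h2 x' hx'
    exact ⟨y', hy', R, hR, hr⟩
  · intro y' hy'
    obtain ⟨x', hx', hr⟩ := h3 y' hy'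
    exact ⟨x', hx', R, hR, hr⟩

theorem bs2_st {b : Bool} {x y : St} (h : BS2 L L' (.st b x) (.st b y)) :
    BS (side L b) (side L' b) x y := by
  refine ⟨fun x y => BS2 L L' (.st b x) (.st b y), ?_, h⟩
  intro x y h
  obtain ⟨h1, h2, h3⟩ := bs2_step h
  refine ⟨?_, ?_, ?_⟩
  · simp only [lab2] at h1
    omega
  · intro x' hx'
    obtain ⟨z, hz, hr⟩ := h2 (.st b x') (ch2_st.2 (Or.inr ⟨x', hx', rfl⟩))
    rcases ch2_st.1 hz with rfl | ⟨y', hy', rfl⟩
    · have := (bs2_step hr).1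
      simp only [lab2] at this
      omega
    · exact ⟨y', hy', hr⟩
  · intro x' hx'
    obtain ⟨z, hz, hr⟩ := h3 (.st b x') (ch2_st.2 (Or.inr ⟨x', hx', rfl⟩))
    rcases ch2_st.1 hz with rfl | ⟨y', hy', rfl⟩
    · have := (bs2_step hr).1
      simp only [lab2] at this
      omega
    · exact ⟨y', hy', hr⟩

theorem bs2_root : BS2 L L' .root .root ↔
    ∀ b, BS (side L b) (side L' b) topSt topSt := by
  constructor
  · intro h b
    obtain ⟨-, h2, -⟩ := bs2_step h
    obtain ⟨z, hz, hr⟩ := h2 (.st b topSt) (ch2_root.2 (Or.inr ⟨b, rfl⟩))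
    rcases ch2_root.1 hz with rfl | ⟨b', rfl⟩
    · have := (bs2_step hr).1
      simp only [lab2] at this
      omega
    · have h1 := (bs2_step hr).1
      have hb : b = b' := by
        simp only [lab2] at h1
        cases b <;> cases b' <;> simp_all
      subst hb
      exact bs2_st hr
  · intro h
    refine ⟨fun a b => (a = .dot ∧ b = .dot) ∨ (a = .root ∧ b = .root) ∨
      ∃ c x y, a = .st c x ∧ b = .st c y ∧ BS (side L c) (side L' c) x y, ?_,
      Or.inr (Or.inl ⟨rfl, rfl⟩)⟩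
    rintro a b (⟨rfl, rfl⟩ | ⟨rfl, rfl⟩ | ⟨c, x, y, rfl, rfl, hxy⟩)
    · refine ⟨rfl, ?_, ?_⟩
      · intro a' ha
        exact ⟨.dot, ch2_dot _, Or.inl ⟨ch2_of_dot ha, rfl⟩⟩
      · intro a' ha
        exact ⟨.dot, ch2_dot _, Or.inl ⟨rfl, ch2_of_dot ha⟩⟩
    · refine ⟨rfl, ?_, ?_⟩
      · intro a' ha
        rcases ch2_root.1 ha with rfl | ⟨b, rfl⟩
        · exact ⟨.dot, ch2_dot _, Or.inl ⟨rfl, rfl⟩⟩
        · exact ⟨_, ch2_root.2 (Or.inr ⟨b, rfl⟩), Or.inr (Or.inr ⟨b, _, _, rfl, rfl, h b⟩)⟩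
      · intro a' ha
        rcases ch2_root.1 ha with rfl | ⟨b, rfl⟩
        · exact ⟨.dot, ch2_dot _, Or.inl ⟨rfl, rfl⟩⟩
        · exact ⟨_, ch2_root.2 (Or.inr ⟨b, rfl⟩), Or.inr (Or.inr ⟨b, _, _, rfl, rfl, h b⟩)⟩
    · obtain ⟨h1, h2, h3⟩ := bs_step hxy
      refine ⟨by simp only [lab2, h1], ?_, ?_⟩
      · intro a' ha
        rcases ch2_st.1 ha with rfl | ⟨x', hx', rfl⟩
        · exact ⟨.dot, ch2_dot _, Or.inl ⟨rfl, rfl⟩⟩
        · obtain ⟨y', hy', hr⟩ := h2 x' hx'
          exact ⟨_, ch2_st.2 (Or.inr ⟨y', hy', rfl⟩), Or.inr (Or.inr ⟨c, _, _, rfl, rfl, hr⟩)⟩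
      · intro a' ha
        rcases ch2_st.1 ha with rfl | ⟨x', hx', rfl⟩
        · exact ⟨.dot, ch2_dot _, Or.inl ⟨rfl, rfl⟩⟩
        · obtain ⟨y', hy', hr⟩ := h3 x' hx'
          exact ⟨_, ch2_st.2 (Or.inr ⟨y', hy', rfl⟩), Or.inr (Or.inr ⟨c, _, _, rfl, rfl, hr⟩)⟩

theorem measurable_rev : Measurable LO.rev := by
  apply Measurable.subtype_mk
  rw [measurable_pi_iff]
  intro p
  exact (measurable_pi_apply (p.2, p.1)).comp measurable_subtype_coe

theorem meas_ch2 (hm : StMeas) (s t : St2) : MeasurableSet {L : LO | ch2 L s t} := by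
  cases s <;> cases t <;> simp only [ch2, MeasurableSet.const]
  rename_i b x b' y
  by_cases hb : b' = b
  · simp only [hb, true_and]
    cases b
    · exact hm x y
    · exact measurable_rev (hm x y)
  · simp only [hb, false_and, MeasurableSet.const]

/-- the reduction, given the parts -/
theorem reduction (hy : Hyps) (hm : StMeas) (hc : StCoding) :
    ∃ h : LO → LO, Measurable h ∧ ∀ x y, BiEmb x y ↔ IsoLO (h x) (h y) := by
  obtain ⟨B, hB, h⟩ := hc LO St2 .dot .root lab2 ch2 (meas_ch2 hm) (fun _ _ => ch2_dot _)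
  refine ⟨B, hB, ?_⟩
  intro L L'
  rw [h L L', main_bis hy]
  have := bs2_root (L := L) (L' := L')
  unfold BS2 at this
  rw [this]
  constructor
  · rintro ⟨h1, h2⟩ b
    cases b
    · exact h1
    · exact h2
  · intro h
    exact ⟨h false, h true⟩

end Pool.Agent.W919.CB
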